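import Mathlib

open scoped BoundedContinuousFunction
open BoundedContinuousFunction

namespace Pool.Agent.Helper41.FewOps

/-- Bounded complex functions on the natural numbers. -/
abbrev E : Type := ℕ →ᵇ ℂ

/-- The residue class of `a` modulo `2 ^ m`. -/
def V (a m : ℕ) : Set ℕ := {n | n % 2 ^ m = a % 2 ^ m}

/-- The closed complex span of a set. -/
noncomputable def cspan (G : Set E) : Submodule ℂ E := (Submodule.span ℂ G).topologicalClosure

lemma subset_cspan (G : Set E) : G ⊆ cspan G := fun x hx =>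
  Submodule.le_topologicalClosure _ (Submodule.subset_span hx)

lemma span_le_cspan (G : Set E) : Submodule.span ℂ G ≤ cspan G :=
  Submodule.le_topologicalClosure _

lemma cspan_mono {G H : Set E} (h : G ⊆ H) : cspan G ≤ cspan H :=
  Submodule.topologicalClosure_mono (Submodule.span_mono h)

lemma isClosed_cspan (G : Set E) : IsClosed (cspan G : Set E) :=
  Submodule.isClosed_topologicalClosure _

lemma exists_near {G : Set E} {x : E} (hx : x ∈ cspan G) {ε : ℝ} (hε : 0 < ε) :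
    ∃ y ∈ Submodule.span ℂ G, ‖x - y‖ < ε := by
  have : x ∈ closure (Submodule.span ℂ G : Set E) := hx
  obtain ⟨y, hy, h⟩ := Metric.mem_closure_iff.1 this ε hε
  exact ⟨y, hy, by rwa [← dist_eq_norm]⟩

/-- `S` is controlled by finitely many members of `G`. -/
def Ctl (G : Set E) (S : ℕ → ℕ → Prop) : Prop :=
  ∃ F : Finset E, (↑F ⊆ G) ∧ ∃ ε : ℝ, 0 < ε ∧ ∀ n k, (∀ x ∈ F, ‖x n - x k‖ < ε) → S n k

lemma Ctl.mono {G : Set E} {S S' : ℕ → ℕ → Prop} (h : Ctl G S) (hS : ∀ n k, S n k → S' n k) :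
    Ctl G S' := by
  obtain ⟨F, hF, ε, hε, h⟩ := h
  exact ⟨F, hF, ε, hε, fun n k hn => hS n k (h n k hn)⟩

lemma Ctl.mono_set {G H : Set E} {S : ℕ → ℕ → Prop} (h : Ctl G S) (hG : G ⊆ H) : Ctl H S := by
  obtain ⟨F, hF, ε, hε, h⟩ := h
  exact ⟨F, hF.trans hG, ε, hε, h⟩

lemma Ctl.and {G : Set E} {S S' : ℕ → ℕ → Prop} (h : Ctl G S) (h' : Ctl G S') :
    Ctl G (fun n k => S n k ∧ S' n k) := by
  classical
  obtain ⟨F, hF, ε, hε, h⟩ := h
  obtain ⟨F', hF', ε', hε', h'⟩ := h'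
  refine ⟨F ∪ F', by simp [hF, hF'], min ε ε', lt_min hε hε', fun n k hn => ⟨?_, ?_⟩⟩
  · exact h n k fun x hx => (hn x (Finset.mem_union_left _ hx)).trans_le (min_le_left _ _)
  · exact h' n k fun x hx => (hn x (Finset.mem_union_right _ hx)).trans_le (min_le_right _ _)

lemma Ctl.true (G : Set E) : Ctl G (fun _ _ => True) :=
  ⟨∅, by simp, 1, one_pos, fun _ _ _ => trivial⟩

lemma Ctl.forall_mem {ι : Type*} {G : Set E} (s : Finset ι) {S : ι → ℕ → ℕ → Prop}
    (h : ∀ i ∈ s, Ctl G (S i)) : Ctl G (fun n k => ∀ i ∈ s, S i n k) := by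
  classical
  induction s using Finset.induction_on with
  | empty => exact (Ctl.true G).mono (by simp)
  | insert a s ha ih =>
    have h1 := h a (Finset.mem_insert_self _ _)
    have h2 := ih fun i hi => h i (Finset.mem_insert_of_mem hi)
    refine (h1.and h2).mono fun n k hn i hi => ?_
    rcases Finset.mem_insert.1 hi with rfl | hi
    · exact hn.1
    · exact hn.2 i hi

lemma Ctl.comp {G : Set E} {S : ℕ → ℕ → Prop} (h : Ctl G S) :
    ∃ S', Ctl G S' ∧ (∀ n l k, S' n l → S' l k → S n k) ∧ (∀ n k, S' n k → S n k) := by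
  obtain ⟨F, hF, ε, hε, h⟩ := h
  refine ⟨fun n k => ∀ x ∈ F, ‖x n - x k‖ < ε / 2, ⟨F, hF, ε / 2, by linarith, fun n k hn => hn⟩,
    fun n l k h1 h2 => h n k fun x hx => ?_, fun n k h1 => h n k fun x hx => ?_⟩
  · have := norm_add_le (x n - x l) (x l - x k)
    have h3 := h1 x hx
    have h4 := h2 x hx
    rw [sub_add_sub_cancel] at this
    linarith
  · linarith [h1 x hx]

lemma Ctl.of_mem {G : Set E} {x : E} (hx : x ∈ G) {ε : ℝ} (hε : 0 < ε) :
    Ctl G (fun n k => ‖x n - x k‖ < ε) :=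
  ⟨{x}, by simpa using hx, ε, hε, fun n k h => h x (by simp)⟩

lemma norm_apply_le (x : E) (n : ℕ) : ‖x n‖ ≤ ‖x‖ := x.norm_coe_le_norm n

lemma Ctl.of_mem_cspan {G : Set E} {x : E} (hx : x ∈ cspan G) {ε : ℝ} (hε : 0 < ε) :
    Ctl G (fun n k => ‖x n - x k‖ < ε) := by
  have key : ∀ y ∈ Submodule.span ℂ G, ∀ ε : ℝ, 0 < ε → Ctl G (fun n k => ‖y n - y k‖ < ε) := by
    intro y hy
    induction hy using Submodule.span_induction with
    | mem x hx => exact fun ε hε => Ctl.of_mem hx hε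
    | zero => exact fun ε hε => (Ctl.true G).mono (by simpa using hε)
    | add x y _ _ hx hy =>
      intro ε hε
      refine ((hx (ε / 2) (by linarith)).and (hy (ε / 2) (by linarith))).mono fun n k h => ?_
      have := norm_add_le (x n - x k) (y n - y k)
      have e : (x + y) n - (x + y) k = (x n - x k) + (y n - y k) := by
        simp only [BoundedContinuousFunction.coe_add, Pi.add_apply]; ring
      rw [e]; linarith [h.1, h.2]
    | smul a x _ hx =>
      intro ε hε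
      refine (hx (ε / (‖a‖ + 1)) (by positivity)).mono fun n k h => ?_
      have e : (a • x) n - (a • x) k = a * (x n - x k) := by
        simp only [BoundedContinuousFunction.coe_smul, smul_eq_mul]; ring
      rw [e, norm_mul]
      have h1 : ‖x n - x k‖ * (‖a‖ + 1) < ε := by
        rwa [lt_div_iff₀ (by positivity)] at h
      nlinarith [norm_nonneg a, norm_nonneg (x n - x k)]
  obtain ⟨y, hy, hxy⟩ := exists_near hx (show 0 < ε / 3 by linarith)
  refine (key y hy (ε / 3) (by linarith)).mono fun n k h => ?_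
  have h1 := norm_apply_le (x - y) n
  have h2 := norm_apply_le (x - y) k
  simp only [BoundedContinuousFunction.coe_sub, Pi.sub_apply] at h1 h2
  have h3 : x n - x k = (x n - y n) + (y n - y k) - (x k - y k) := by ring
  rw [h3]
  have := norm_sub_le ((x n - y n) + (y n - y k)) (x k - y k)
  have := norm_add_le (x n - y n) (y n - y k)
  linarith

lemma Ctl.insert {G : Set E} {z : E} {S : ℕ → ℕ → Prop} (h : Ctl (insert z G) S) :
    ∃ S', Ctl G S' ∧ ∃ ε : ℝ, 0 < ε ∧ ∀ n k, S' n k → ‖z n - z k‖ < ε → S n k := by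
  classical
  obtain ⟨F, hF, ε, hε, h⟩ := h
  refine ⟨fun n k => ∀ x ∈ F.filter (· ∈ G), ‖x n - x k‖ < ε,
    ⟨F.filter (· ∈ G), by intro x hx; simpa using (Finset.mem_filter.1 hx).2, ε, hε,
      fun n k h => h⟩, ε, hε, fun n k h1 h2 => h n k fun x hx => ?_⟩
  by_cases hxG : x ∈ G
  · exact h1 x (Finset.mem_filter.2 ⟨hx, hxG⟩)
  · rcases hF hx with rfl | h3
    · exact h2
    · exact absurd h3 hxG

/-- Joint quasi-continuity with respect to the residue classes modulo powers of two. -/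
def JQC (G : Set E) : Prop := ∀ S, Ctl G S → ∀ k, ∃ a m, ∀ n ∈ V a m, S n k

/-- `z` is the pointwise sum of the `u n`, `n ∈ A`, for disjointly supported `u`. -/
structure IsSum (u : ℕ → E) (A : Set ℕ) (z : E) : Prop where
  of_ne : ∀ n ∈ A, ∀ k, u n k ≠ 0 → z k = u n k
  of_eq : ∀ k, (∀ n ∈ A, u n k = 0) → z k = 0

/-- Pairwise disjoint supports. -/
def Disj (u : ℕ → E) : Prop := ∀ n m, n ≠ m → ∀ k, u n k = 0 ∨ u m k = 0

lemma IsSum.exists_of_ne {u : ℕ → E} {A : Set ℕ} {z : E} (h : IsSum u A z) {k : ℕ}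
    (hk : z k ≠ 0) : ∃ n ∈ A, u n k ≠ 0 ∧ z k = u n k := by
  by_contra hcon
  push Not at hcon
  apply hk
  apply h.of_eq
  intro n hn
  by_contra hne
  exact hcon n hn hne (h.of_ne n hn k hne)

lemma exists_isSum {u : ℕ → E} (hd : Disj u) {M : ℝ} (hM : ∀ n, ‖u n‖ ≤ M) (A : Set ℕ) :
    ∃ z : E, IsSum u A z ∧ ‖z‖ ≤ M := by
  classical
  have hM0 : 0 ≤ M := (norm_nonneg _).trans (hM 0)
  let f : ℕ → ℂ := fun k => if h : ∃ n ∈ A, u n k ≠ 0 then u h.choose k else 0
  have hf : ∀ k, ‖f k‖ ≤ M := by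
    intro k
    by_cases h : ∃ n ∈ A, u n k ≠ 0
    · simp only [f, h, dif_pos]
      exact (norm_apply_le _ _).trans (hM _)
    · simp only [f, h, dif_neg, not_false_iff, norm_zero, hM0]
  refine ⟨BoundedContinuousFunction.ofNormedAddCommGroupDiscrete f M hf, ⟨?_, ?_⟩, ?_⟩
  · intro n hn k hk
    have h : ∃ n ∈ A, u n k ≠ 0 := ⟨n, hn, hk⟩
    have h1 : h.choose = n := by
      by_contra hne
      rcases hd _ _ hne k with h2 | h2
      · exact h.choose_spec.2 h2
      · exact hk h2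
    show f k = u n k
    simp only [f, h, dif_pos, h1]
  · intro k hk
    have h : ¬ ∃ n ∈ A, u n k ≠ 0 := by
      rintro ⟨n, hn, h⟩; exact h (hk n hn)
    show f k = 0
    simp only [f, h, dif_neg, not_false_iff]
  · exact (BoundedContinuousFunction.norm_le hM0).2 hf

/-- Finite disjoint sums. -/
lemma isSum_finset {u : ℕ → E} (hd : Disj u) (s : Finset ℕ) :
    IsSum u ↑s (∑ i ∈ s, u i) := by
  classical
  have e : ∀ k, (∑ i ∈ s, u i : E) k = ∑ i ∈ s, u i k := by
    intro k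
    simp
  constructor
  · intro n hn k hk
    rw [e, Finset.sum_eq_single n]
    · intro b _ hb
      rcases hd b n hb k with h | h
      · exact h
      · exact absurd h hk
    · intro h
      exact absurd hn (by simpa using h)
  · intro k hk
    rw [e]
    exact Finset.sum_eq_zero fun i hi => hk i (by simpa using hi)

lemma jqc_step {G : Set E} (hG : JQC G) {u : ℕ → E} (hu : ∀ n, u n ∈ cspan G) (hd : Disj u)
    {A B : Set ℕ} (hAB : (A ∩ B).Finite) {zA zB : E} (hA : IsSum u A zA) (hB : IsSum u B zB)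
    {k : ℕ} {SA SB : ℕ → ℕ → Prop} (hSA : Ctl G SA) (hSB : Ctl G SB) {εA εB : ℝ} (hεA : 0 < εA)
    (hεB : 0 < εB)
    (badA : ∀ a m, ¬ ∀ n ∈ V a m, SA n k ∧ ‖zA n - zA k‖ < εA)
    (badB : ∀ a m, ¬ ∀ n ∈ V a m, SB n k ∧ ‖zB n - zB k‖ < εB) : False := by
  have zero : ∀ {A : Set ℕ} {zA : E} (_ : IsSum u A zA) {SA : ℕ → ℕ → Prop} (_ : Ctl G SA)
      {εA : ℝ} (_ : 0 < εA) (_ : ∀ a m, ¬ ∀ n ∈ V a m, SA n k ∧ ‖zA n - zA k‖ < εA),
      ∀ m ∈ A, u m k = 0 := by
    intro A zA hA SA hSA εA hεA badA m hm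
    by_contra hne
    have hpos : 0 < ‖u m k‖ := norm_pos_iff.2 hne
    obtain ⟨a, j, h⟩ := hG _ (hSA.and (Ctl.of_mem_cspan (hu m) (lt_min hεA hpos))) k
    apply badA a j
    intro n hn
    obtain ⟨h1, h2⟩ := h n hn
    refine ⟨h1, ?_⟩
    have hun : u m n ≠ 0 := by
      intro h0
      rw [h0, zero_sub, norm_neg] at h2
      exact lt_irrefl _ (h2.trans_le (min_le_right _ _))
    rw [hA.of_ne m hm n hun, hA.of_ne m hm k hne]
    exact h2.trans_le (min_le_left _ _)
  have zA0 := zero hA hSA hεA badA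
  have zB0 := zero hB hSB hεB badB
  have zAk : zA k = 0 := hA.of_eq k zA0
  have zBk : zB k = 0 := hB.of_eq k zB0
  have hfin : Ctl G (fun n k => ∀ m ∈ hAB.toFinset, ‖u m n - u m k‖ < εA) :=
    Ctl.forall_mem _ fun m _ => Ctl.of_mem_cspan (hu m) hεA
  obtain ⟨S', hS', hcomp, hsub⟩ := ((hSA.and hSB).and hfin).comp
  obtain ⟨a, j, h⟩ := hG _ hS' k
  have h1 := badA a j
  push Not at h1
  obtain ⟨n, hn, h2⟩ := h1
  have h3 := hsub n k (h n hn)
  have h4 := h2 h3.1.1
  rw [zAk, sub_zero] at h4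
  have h5 : zA n ≠ 0 := by
    intro h0
    rw [h0, norm_zero] at h4
    linarith
  obtain ⟨l, hl, hul, hzl⟩ := hA.exists_of_ne h5
  have hlB : l ∉ B := by
    intro hlB
    have h6 := h3.2 l (by simpa using ⟨hl, hlB⟩)
    rw [zA0 l hl, sub_zero, ← hzl] at h6
    linarith
  obtain ⟨a', j', h7⟩ := hG _ (hS'.and (Ctl.of_mem_cspan (hu l) (norm_pos_iff.2 hul))) n
  apply badB a' j'
  intro n' hn'
  obtain ⟨h8, h9⟩ := h7 n' hn'
  have h10 := hcomp n' n k h8 (h n hn)
  refine ⟨h10.1.2, ?_⟩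
  have hun' : u l n' ≠ 0 := by
    intro h0
    rw [h0, zero_sub, norm_neg] at h9
    exact lt_irrefl _ h9
  have h11 : zB n' = 0 := by
    apply hB.of_eq
    intro i hi
    have hil : i ≠ l := by rintro rfl; exact hlB hi
    rcases hd i l hil n' with h | h
    · exact h
    · exact absurd h hun'
  rw [h11, zBk, sub_zero, norm_zero]
  exact hεB

/-- A promise: no element of `Y` is uniformly closer than `δ` to the target `R`. -/
def PH (R : Set (ℕ × ℂ)) (δ : ℝ) (Y : Set E) : Prop :=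
  ∀ x ∈ Y, ∀ η < δ, ∃ r ∈ R, η < ‖r.2 - x r.1‖

lemma old_step {G : Set E} {u : ℕ → E} (hu : ∀ n, u n ∈ cspan G) (hd : Disj u)
    {A B : Set ℕ} (hAB : (A ∩ B).Finite) {zA zB : E} (hA : IsSum u A zA) (hB : IsSum u B zB)
    {R : Set (ℕ × ℂ)} {δ : ℝ} (hP : PH R δ (cspan G)) {y : E} (hy : y ∈ cspan G) (μ : ℂ) {η : ℝ}
    (hη : η < δ) (h1 : ∀ r ∈ R, ‖r.2 - y r.1 - μ * zA r.1‖ ≤ η)
    (h2 : ∀ r ∈ R, ‖r.2 - y r.1 - μ * zB r.1‖ ≤ η) : False := by
  have hw := isSum_finset hd hAB.toFinset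
  set w : E := ∑ i ∈ hAB.toFinset, u i with hwdef
  have hwG : w ∈ cspan G := Submodule.sum_mem _ fun i _ => hu i
  obtain ⟨r, hr, h3⟩ := hP (y + μ • w) (Submodule.add_mem _ hy (Submodule.smul_mem _ _ hwG)) η hη
  have e : (y + μ • w) r.1 = y r.1 + μ * w r.1 := by simp
  rw [e, ← sub_sub] at h3
  by_cases hc : ∃ i ∈ A ∩ B, u i r.1 ≠ 0
  · obtain ⟨i, hi, hui⟩ := hc
    have e1 : w r.1 = u i r.1 := hw.of_ne i (by simpa using hi) _ hui
    have e2 : zA r.1 = u i r.1 := hA.of_ne i hi.1 _ hui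
    have := h1 r hr
    rw [e2, ← e1] at this
    linarith
  · push Not at hc
    have e1 : w r.1 = 0 := hw.of_eq _ fun i hi => hc i (by simpa using hi)
    by_cases hzA : zA r.1 = 0
    · have := h1 r hr
      rw [hzA, ← e1] at this
      linarith
    · obtain ⟨i, hi, hui, _⟩ := hA.exists_of_ne hzA
      have hiB : i ∉ B := fun hiB => hui (hc i ⟨hi, hiB⟩)
      have e2 : zB r.1 = 0 := by
        apply hB.of_eq
        intro j hj
        have hij : j ≠ i := by rintro rfl; exact hiB hj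
        rcases hd j i hij r.1 with h | h
        · exact h
        · exact absurd h hui
      have := h2 r hr
      rw [e2, ← e1] at this
      linarith

/-- The target attached to `A` by the data `(p, q, s, t)`. -/
def target (p q : ℕ → ℕ) (s t : ℕ → ℂ) (A : Set ℕ) : Set (ℕ × ℂ) :=
  {r | ∃ n, r = (p n, A.indicator s n) ∨ r = (q n, A.indicator t n)}

lemma new_step {u : ℕ → E} 
    {A B : Set ℕ} (hAB : (A \ B).Infinite) {zA zB : E} (hA : IsSum u A zA) (hB : IsSum u B zB)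
    {p q : ℕ → ℕ} {s t : ℕ → ℂ} {δ : ℝ}
    (hoff : ∀ n m, m ≠ n → u m (p n) = 0 ∧ u m (q n) = 0)
    (hcond : ∀ μ : ℂ, {n | ‖s n - μ * u n (p n)‖ < 2 * δ ∧ ‖t n - μ * u n (q n)‖ < 2 * δ}.Finite)
    {y : E} (μ : ℂ) {η : ℝ}
    (hη : η < δ) (h1 : ∀ r ∈ target p q s t A, ‖r.2 - y r.1 - μ * zA r.1‖ ≤ η)
    (h2 : ∀ r ∈ target p q s t B, ‖r.2 - y r.1 - μ * zB r.1‖ ≤ η) : False := by
  obtain ⟨n, hn, hn2⟩ := (hAB.diff (hcond μ)).nonempty
  apply hn2
  have aux : ∀ (k : ℕ) (c : ℂ), (∀ m, m ≠ n → u m k = 0) → (k, c) ∈ target p q s t A →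
      (k, 0) ∈ target p q s t B → ‖c - μ * u n k‖ < 2 * δ := by
    intro k c hk hc hc0
    have e1 : zA k = u n k := by
      by_cases h : u n k = 0
      · rw [h]
        apply hA.of_eq
        intro m _
        by_cases hm : m = n
        · rw [hm, h]
        · exact hk m hm
      · exact hA.of_ne n hn.1 k h
    have e2 : zB k = 0 := by
      apply hB.of_eq
      intro m hm
      have hmn : m ≠ n := by rintro rfl; exact hn.2 hm
      exact hk m hmn
    have h3 := h1 _ hc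
    have h4 := h2 _ hc0
    simp only [e1, e2, mul_zero, sub_zero, zero_sub, norm_neg] at h3 h4
    have e3 : c - μ * u n k = (c - y k - μ * u n k) + y k := by ring
    rw [e3]
    have := norm_add_le (c - y k - μ * u n k) (y k)
    linarith
  constructor
  · apply aux (p n) (s n) (fun m hm => (hoff n m hm).1)
    · exact ⟨n, Or.inl (by rw [Set.indicator_of_mem hn.1])⟩
    · exact ⟨n, Or.inl (by rw [Set.indicator_of_notMem hn.2])⟩
  · apply aux (q n) (t n) (fun m hm => (hoff n m hm).2)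
    · exact ⟨n, Or.inr (by rw [Set.indicator_of_mem hn.1])⟩
    · exact ⟨n, Or.inr (by rw [Set.indicator_of_notMem hn.2])⟩

lemma not_PH_insert {G : Set E} {z : E} {R : Set (ℕ × ℂ)} {δ : ℝ}
    (h : ¬ PH R δ (cspan (insert z G))) {M : ℝ} (hM : 0 ≤ M) :
    ∃ y ∈ cspan G, ∃ μ : ℂ, ∃ η : ℝ, ∃ j : ℕ, η + M / (j + 1) < δ ∧
      ∀ r ∈ R, ‖r.2 - y r.1 - μ * z r.1‖ ≤ η := by
  unfold PH at h
  push Not at h
  obtain ⟨x, hx, η0, hη0, h⟩ := h
  obtain ⟨w, hw, hxw⟩ := exists_near hx (show 0 < (δ - η0) / 2 by linarith)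
  obtain ⟨μ, y, hy, rfl⟩ := Submodule.mem_span_insert.1 hw
  have : ∃ j : ℕ, M / (j + 1) < (δ - η0) / 2 := by
    obtain ⟨j, hj⟩ := exists_nat_gt (M / ((δ - η0) / 2))
    refine ⟨j, ?_⟩
    rw [div_lt_iff₀ (by linarith)] at hj
    rw [div_lt_iff₀ (by positivity)]
    nlinarith
  obtain ⟨j, hj⟩ := this
  refine ⟨y, span_le_cspan _ hy, μ, (η0 + δ) / 2, j, by linarith, fun r hr => ?_⟩
  have h1 := h r hr
  have h2 := norm_apply_le (x - (μ • z + y)) r.1
  have e : r.2 - y r.1 - μ * z r.1 = (r.2 - x r.1) + (x - (μ • z + y)) r.1 := by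
    simp; ring
  rw [e]
  have := norm_add_le (r.2 - x r.1) ((x - (μ • z + y)) r.1)
  linarith

end Pool.Agent.Helper41.FewOps
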