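import Pool.Agent.Helper41.FewOps.Small

open scoped BoundedContinuousFunction Topology
open BoundedContinuousFunction Filter

namespace Pool.Agent.Helper41.FewOps

variable {X : Submodule ℂ E}

/-- Operators mapping bounded disjoint sequences to null sequences. -/
def Small (S : X →L[ℝ] X) : Prop :=
  ∀ (u : ℕ → X) (M : ℝ), DisjX u → (∀ n, ‖u n‖ ≤ M) → Tendsto (fun n => S (u n)) atTop (𝓝 0)

lemma Small.smul {S : X →L[ℝ] X} (h : Small S) (t : ℝ) : Small (t • S) := by
  intro u M hd hM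
  have := (h u M hd hM).const_smul t
  simpa using this

lemma indW_disj (hind : ∀ a m, ind (V a m) ∈ X) (a m : ℕ) (c : ℂ) :
    DisjX (fun j => c • indX hind (a + 2 ^ (m + j)) (m + j + 1)) := by
  intro i j hij k
  by_contra hcon
  push Not at hcon
  obtain ⟨h1, h2⟩ := hcon
  have key : ∀ i, ((c • indX hind (a + 2 ^ (m + i)) (m + i + 1) : X) : E) k ≠ 0 →
      k ∈ W a m i := by
    intro i hi
    by_contra h
    apply hi
    have : ((c • indX hind (a + 2 ^ (m + i)) (m + i + 1) : X) : E) k = c * ind (W a m i) k := rfl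
    rw [this, ind_apply_of_notMem h, mul_zero]
  rcases lt_or_gt_of_ne hij with h | h
  · exact W_disjoint h (key i h1) (key j h2)
  · exact W_disjoint h (key j h2) (key i h1)

/-- The Daugavet equation for small operators. -/
theorem daugavet (hind : ∀ a m, ind (V a m) ∈ X) (hJ : JQC (X : Set E)) {S : X →L[ℝ] X}
    (hS : Small S) {a : ℝ} (ha : 0 ≤ a) : a + ‖S‖ ≤ ‖a • ContinuousLinearMap.id ℝ X + S‖ := by
  set T : X →L[ℝ] X := a • ContinuousLinearMap.id ℝ X + S with hT
  have key : ∀ ε : ℝ, 0 < ε → ε < 1 → a + ‖S‖ - (a + 3) * ε ≤ ‖T‖ * (1 + ε) := by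
    intro ε hε hε1
    -- a vector almost attaining the norm
    have hx : ∃ x : X, ‖x‖ ≤ 1 ∧ ‖S‖ - ε < ‖S x‖ := by
      by_contra hcon
      push Not at hcon
      rcases le_or_gt 0 (‖S‖ - ε) with h0 | h0
      · have h1 : ‖S‖ ≤ ‖S‖ - ε := by
          refine S.opNorm_le_of_unit_norm h0 fun x hx => hcon x hx.le
        linarith
      · have := hcon 0 (by simp)
        rw [map_zero, norm_zero] at this
        linarith
    obtain ⟨x, hx1, hx2⟩ := hx
    obtain ⟨k, hk⟩ := exists_large (S x) hx2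
    obtain ⟨b, m, hbm⟩ := jqc_pair hJ x (S x) k hε
    -- the direction
    have hω : ∃ ω : ℂ, ‖ω‖ = 1 ∧ (S x : E) k = ‖(S x : E) k‖ * ω := by
      by_cases h0 : (S x : E) k = 0
      · exact ⟨1, by simp, by rw [h0]; simp⟩
      · refine ⟨(S x : E) k / ‖(S x : E) k‖, ?_, ?_⟩
        · rw [norm_div, Complex.norm_real, norm_norm, div_self (norm_ne_zero_iff.2 h0)]
        · have : ((‖(S x : E) k‖ : ℝ) : ℂ) ≠ 0 := by
            exact_mod_cast norm_ne_zero_iff.2 h0
          field_simp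
    obtain ⟨ω, hω1, hω2⟩ := hω
    set c : ℂ := ω - (x : E) k with hc
    have hnull := hS _ (‖c‖) (indW_disj hind b m c) (fun j => by
      rw [norm_smul]
      calc ‖c‖ * ‖indX hind (b + 2 ^ (m + j)) (m + j + 1)‖ ≤ ‖c‖ * 1 :=
            mul_le_mul_of_nonneg_left (norm_indX_le hind _ _) (norm_nonneg _)
        _ = ‖c‖ := mul_one _)
    obtain ⟨N, hN⟩ := (Metric.tendsto_atTop.1 hnull) ε hε
    have hN' := hN N le_rfl
    rw [dist_zero_right] at hN'
    set y : X := c • indX hind (b + 2 ^ (m + N)) (m + N + 1) with hy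
    have hy1 : ∀ i, i ∈ W b m N → (y : E) i = c := by
      intro i hi
      have : (y : E) i = c * ind (W b m N) i := rfl
      rw [this, ind_apply_of_mem hi, mul_one]
    have hy0 : ∀ i, i ∉ W b m N → (y : E) i = 0 := by
      intro i hi
      have : (y : E) i = c * ind (W b m N) i := rfl
      rw [this, ind_apply_of_notMem hi, mul_zero]
    have hw : ‖x + y‖ ≤ 1 + ε := by
      refine (BoundedContinuousFunction.norm_le (by linarith)).2 fun i => ?_
      show ‖(x : E) i + (y : E) i‖ ≤ 1 + ε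
      by_cases hi : i ∈ W b m N
      · rw [hy1 i hi]
        have h1 := (hbm i (W_subset _ _ _ hi)).1
        have e1 : (x : E) i + c = ((x : E) i - (x : E) k) + ω := by rw [hc]; ring
        rw [e1]
        have := norm_add_le ((x : E) i - (x : E) k) ω
        linarith
      · rw [hy0 i hi, add_zero]
        have := norm_apply_le (x : E) i
        have h2 : ‖(x : E)‖ ≤ 1 := hx1
        linarith
    -- evaluation at a point
    set i := b + 2 ^ (m + N) with hi
    have hiW : i ∈ W b m N := self_mem_W b m N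
    have h1 := hbm i (W_subset _ _ _ hiW)
    have hval : (T (x + y) : E) i = (a * ω + (S x : E) k) + (a * ((x : E) i - (x : E) k) +
        ((S x : E) i - (S x : E) k) + (S y : E) i) := by
      have e1 : (T (x + y) : E) i = a * ((x : E) i + (y : E) i) + ((S x : E) i + (S y : E) i) := by
        rw [hT]
        simp
        ring
      rw [e1, hy1 i hiW, hc]
      ring
    have hmain : a + ‖(S x : E) k‖ ≤ ‖(a * ω + (S x : E) k : ℂ)‖ := by
      rw [hω2]
      have e1 : (a * ω + (‖(S x : E) k‖ : ℂ) * ω : ℂ) = ((a + ‖(S x : E) k‖ : ℝ) : ℂ) * ω := by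
        push_cast; ring
      have e2 : ‖(a * ω + (((‖((‖(S x : E) k‖ : ℂ) * ω)‖ : ℝ) : ℂ)) * ω : ℂ)‖ =
          a + ‖(S x : E) k‖ := by
        rw [norm_mul, hω1, mul_one, Complex.norm_real, norm_norm, e1, norm_mul, hω1, mul_one,
          Complex.norm_real, Real.norm_of_nonneg (by positivity)]
      rw [norm_mul, hω1, mul_one, Complex.norm_real, norm_norm, e1, norm_mul, hω1, mul_one,
          Complex.norm_real, Real.norm_of_nonneg (by positivity)]
    have herr : ‖(a * ((x : E) i - (x : E) k) +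
        ((S x : E) i - (S x : E) k) + (S y : E) i : ℂ)‖ ≤ a * ε + ε + ε := by
      have h2 := norm_add_le (a * ((x : E) i - (x : E) k) + ((S x : E) i - (S x : E) k) : ℂ)
        ((S y : E) i)
      have h3 := norm_add_le (a * ((x : E) i - (x : E) k) : ℂ) ((S x : E) i - (S x : E) k)
      have h4 : ‖(a * ((x : E) i - (x : E) k) : ℂ)‖ ≤ a * ε := by
        rw [norm_mul, Complex.norm_real, Real.norm_of_nonneg ha]
        exact mul_le_mul_of_nonneg_left h1.1.le ha
      have h5 : ‖(S y : E) i‖ ≤ ε := (norm_apply_le _ _).trans hN'.le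
      linarith [h1.2]
    have hTle : ‖(T (x + y) : E) i‖ ≤ ‖T‖ * (1 + ε) := by
      refine (norm_apply_le _ _).trans ?_
      have h2 : ‖T (x + y)‖ ≤ ‖T‖ * ‖x + y‖ := T.le_opNorm _
      exact h2.trans (mul_le_mul_of_nonneg_left hw (norm_nonneg T))
    rw [hval] at hTle
    have h2 := norm_sub_norm_le (a * ω + (S x : E) k : ℂ) (-(a * ((x : E) i - (x : E) k) +
        ((S x : E) i - (S x : E) k) + (S y : E) i))
    rw [norm_neg, sub_neg_eq_add] at h2
    have h3 : a + ‖S‖ - ε ≤ a + ‖(S x : E) k‖ := by linarith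
    linarith
  by_contra hcon
  push Not at hcon
  set g := a + ‖S‖ - ‖T‖ with hg
  have hgpos : 0 < g := by rw [hg]; linarith
  have hD : 0 < a + 3 + ‖T‖ := by positivity
  set ε := min (1 / 2) (g / (2 * (a + 3 + ‖T‖))) with hεd
  have hε : 0 < ε := lt_min (by norm_num) (by positivity)
  have h1 := key ε hε (lt_of_le_of_lt (min_le_left _ _) (by norm_num))
  have h2 : ε * (a + 3 + ‖T‖) ≤ g / 2 := by
    have h3 : ε ≤ g / (2 * (a + 3 + ‖T‖)) := min_le_right _ _
    calc ε * (a + 3 + ‖T‖) ≤ g / (2 * (a + 3 + ‖T‖)) * (a + 3 + ‖T‖) :=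
          mul_le_mul_of_nonneg_right h3 hD.le
      _ = g / 2 := by field_simp
  rw [hg] at h2 hgpos
  nlinarith

lemma norm_smul_op {Y : Type*} [NormedAddCommGroup Y] [NormedSpace ℝ Y] (t : ℝ)
    (S : Y →L[ℝ] Y) : ‖t • S‖ = |t| * ‖S‖ := norm_smul t S

/-- The final package. -/
theorem package : ∃ X : Submodule ℂ E, IsClosed (X : Set E) ∧ (∀ a m, ind (V a m) ∈ X) ∧
    ∀ T : X →L[ℝ] X, ∃ c : ℂ, ∃ S : X →L[ℝ] X, (∀ x, T x = c • x + S x) ∧
      ∀ t a : ℝ, 0 ≤ a → a + |t| * ‖S‖ ≤ ‖a • ContinuousLinearMap.id ℝ X + t • S‖ := by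
  obtain ⟨X, hcl, hind, hJ, hX⟩ := exists_space
  refine ⟨X, hcl, hind, fun T => ?_⟩
  obtain ⟨c, hc⟩ := small hX hind hJ T
  refine ⟨c, T - c • ContinuousLinearMap.id ℝ X, fun x => ?_, fun t a ha => ?_⟩
  · simp
  · have hS : Small (T - c • ContinuousLinearMap.id ℝ X) := by
      intro u M hd hM
      simpa using hc u M hd hM
    have h1 := daugavet hind hJ (hS.smul t) ha
    rwa [norm_smul_op] at h1

end Pool.Agent.Helper41.FewOps
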