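import Pool.Agent.Helper41.FewOps.Space

open scoped BoundedContinuousFunction Cardinal Topology
open BoundedContinuousFunction Filter

namespace Pool.Agent.Helper41.FewOps

/-- Rosenthal's lemma for nonnegative matrices with bounded rows. -/
lemma rosenthal {ε : ℝ} (hε : 0 < ε) : ∀ (c : ℕ) (a : ℕ → ℕ → ℝ), (∀ n m, 0 ≤ a n m) →
    (∀ n (F : Finset ℕ), ∑ m ∈ F, a n m ≤ c * ε) →
    ∃ ψ : ℕ → ℕ, Function.Injective ψ ∧
      ∀ n (F : Finset ℕ), n ∉ F → ∑ m ∈ F, a (ψ n) (ψ m) ≤ ε := by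
  classical
  intro c
  induction c with
  | zero =>
    intro a _ h
    refine ⟨id, Function.injective_id, fun n F _ => (h n F).trans ?_⟩
    simp [hε.le]
  | succ c ih =>
    intro a ha h
    by_cases hc : ∃ p, ∀ (j : ℕ) (F : Finset ℕ), j ∉ F →
        ∑ m ∈ F, a (Nat.pair p j) (Nat.pair p m) ≤ ε
    · obtain ⟨p, hp⟩ := hc
      refine ⟨fun j => Nat.pair p j, fun i j hij => ?_, hp⟩
      exact (Nat.pair_eq_pair.1 hij).2
    · push Not at hc
      choose j F hjF hF using hc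
      obtain ⟨ψ, hψ, hψ2⟩ := ih (fun n m => a (Nat.pair n (j n)) (Nat.pair m (j m)))
        (fun n m => ha _ _) (by
          intro n s
          have h1 := h (Nat.pair n (j n))
            (s.image (fun m => Nat.pair m (j m)) ∪ (F n).image (fun m => Nat.pair n m))
          have hdisj : Disjoint (s.image (fun m => Nat.pair m (j m)))
              ((F n).image (fun m => Nat.pair n m)) := by
            rw [Finset.disjoint_left]
            intro x hx hx2
            obtain ⟨m, _, rfl⟩ := Finset.mem_image.1 hx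
            obtain ⟨m', hm', h2⟩ := Finset.mem_image.1 hx2
            obtain ⟨h3, h4⟩ := Nat.pair_eq_pair.1 h2
            rw [← h3] at h4
            rw [h4] at hm'
            exact hjF n hm'
          rw [Finset.sum_union hdisj, Finset.sum_image, Finset.sum_image] at h1
          · have h2 := hF n
            push_cast at h1
            linarith
          · intro x _ y _ hxy
            exact (Nat.pair_eq_pair.1 hxy).2
          · intro x _ y _ hxy
            exact (Nat.pair_eq_pair.1 hxy).1)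
      refine ⟨fun n => Nat.pair (ψ n) (j (ψ n)), fun x y hxy => ?_, hψ2⟩
      exact hψ (Nat.pair_eq_pair.1 hxy).1

variable {X : Submodule ℂ E}

lemma norm_disj_sum {ι : Type*} (s : Finset ι) (w : ι → E) (σ : ι → ℝ) {M : ℝ} (hM0 : 0 ≤ M)
    (hM : ∀ j ∈ s, ‖w j‖ ≤ M) (hσ : ∀ j ∈ s, |σ j| ≤ 1)
    (hd : ∀ i ∈ s, ∀ j ∈ s, i ≠ j → ∀ n, w i n = 0 ∨ w j n = 0) :
    ‖∑ j ∈ s, (σ j : ℂ) • w j‖ ≤ M := by
  classical
  refine (BoundedContinuousFunction.norm_le hM0).2 fun n => ?_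
  have e : (∑ j ∈ s, (σ j : ℂ) • w j : E) n = ∑ j ∈ s, (σ j : ℂ) * w j n := by simp
  rw [e]
  by_cases h : ∃ i ∈ s, w i n ≠ 0
  · obtain ⟨i, hi, hin⟩ := h
    rw [Finset.sum_eq_single_of_mem i hi]
    · rw [norm_mul, Complex.norm_real, Real.norm_eq_abs]
      calc |σ i| * ‖w i n‖ ≤ 1 * M :=
            mul_le_mul (hσ i hi) ((norm_apply_le _ _).trans (hM i hi)) (norm_nonneg _) zero_le_one
        _ = M := one_mul M
    · intro j hj hji
      rcases hd j hj i hi hji n with h1 | h1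
      · rw [h1, mul_zero]
      · exact absurd h1 hin
  · push Not at h
    rw [Finset.sum_eq_zero]
    · simpa using hM0
    · intro i hi
      rw [h i hi, mul_zero]

lemma sum_le (T : X →L[ℝ] X) (k : ℕ) {ι : Type*} (s : Finset ι) (w : ι → X) {M : ℝ}
    (hM0 : 0 ≤ M) (hM : ∀ j ∈ s, ‖w j‖ ≤ M)
    (hd : ∀ i ∈ s, ∀ j ∈ s, i ≠ j → ∀ n, (w i : E) n = 0 ∨ (w j : E) n = 0) :
    ∑ j ∈ s, ‖(T (w j) : E) k‖ ≤ 2 * ‖T‖ * M := by
  have key : ∀ σ : ι → ℝ, (∀ j ∈ s, |σ j| ≤ 1) →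
      ‖∑ j ∈ s, (σ j : ℂ) * (T (w j) : E) k‖ ≤ ‖T‖ * M := by
    intro σ hσ
    have h1 : (T (∑ j ∈ s, σ j • w j) : E) k = ∑ j ∈ s, (σ j : ℂ) * (T (w j) : E) k := by
      rw [map_sum]
      simp only [map_smul]
      rw [Submodule.coe_sum]
      simp
    have h2 : ‖(∑ j ∈ s, σ j • w j : X)‖ ≤ M := by
      have h3 := norm_disj_sum s (fun j => (w j : E)) σ hM0 hM hσ hd
      have h4 : ((∑ j ∈ s, σ j • w j : X) : E) = ∑ j ∈ s, (σ j : ℂ) • (w j : E) := by
        rw [Submodule.coe_sum]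
        rfl
      show ‖((∑ j ∈ s, σ j • w j : X) : E)‖ ≤ M
      rw [h4]
      exact h3
    rw [← h1]
    refine (norm_apply_le _ k).trans ?_
    show ‖T (∑ j ∈ s, σ j • w j)‖ ≤ ‖T‖ * M
    exact (T.le_opNorm _).trans (mul_le_mul_of_nonneg_left h2 (norm_nonneg _))
  have hre : ∑ j ∈ s, |((T (w j) : E) k).re| ≤ ‖T‖ * M := by
    have h1 := key (fun j => if 0 ≤ ((T (w j) : E) k).re then 1 else -1) (by
      intro j _; split_ifs <;> simp)
    refine le_trans ?_ ((Complex.abs_re_le_norm _).trans h1)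
    rw [Complex.re_sum]
    refine le_trans (le_of_eq ?_) (le_abs_self _)
    apply Finset.sum_congr rfl
    intro j _
    rw [Complex.re_ofReal_mul]
    split_ifs with h
    · rw [abs_of_nonneg h, one_mul]
    · rw [abs_of_neg (not_le.1 h)]; ring
  have him : ∑ j ∈ s, |((T (w j) : E) k).im| ≤ ‖T‖ * M := by
    have h1 := key (fun j => if 0 ≤ ((T (w j) : E) k).im then 1 else -1) (by
      intro j _; split_ifs <;> simp)
    refine le_trans ?_ ((Complex.abs_im_le_norm _).trans h1)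
    rw [Complex.im_sum]
    refine le_trans (le_of_eq ?_) (le_abs_self _)
    apply Finset.sum_congr rfl
    intro j _
    rw [Complex.im_ofReal_mul]
    split_ifs with h
    · rw [abs_of_nonneg h, one_mul]
    · rw [abs_of_neg (not_le.1 h)]; ring
  calc ∑ j ∈ s, ‖(T (w j) : E) k‖ ≤ ∑ j ∈ s, (|((T (w j) : E) k).re| + |((T (w j) : E) k).im|) :=
        Finset.sum_le_sum fun j _ => Complex.norm_le_abs_re_add_abs_im _
    _ = ∑ j ∈ s, |((T (w j) : E) k).re| + ∑ j ∈ s, |((T (w j) : E) k).im| :=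
        Finset.sum_add_distrib
    _ ≤ 2 * ‖T‖ * M := by linarith

/-- Pairwise disjoint supports, for sequences in `X`. -/
def DisjX (u : ℕ → X) : Prop := Disj fun n => (u n : E)

lemma summable_apply (T : X →L[ℝ] X) (k : ℕ) {u : ℕ → X} (hd : DisjX u) {M : ℝ}
    (hM : ∀ n, ‖u n‖ ≤ M) : Summable fun n => ‖(T (u n) : E) k‖ := by
  have hM0 : 0 ≤ M := (norm_nonneg _).trans (hM 0)
  exact summable_of_sum_le (fun n => norm_nonneg _) fun s =>
    sum_le T k s u hM0 (fun j _ => hM j) fun i _ j _ hij => hd i j hij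

lemma singular_finite (T : X →L[ℝ] X) (k : ℕ) {u : ℕ → X} (hd : DisjX u) {M : ℝ}
    (hM : ∀ n, ‖u n‖ ≤ M) {B : (ℕ → Bool) → Set ℕ} (hB : ∀ g, B g ⊆ AD g)
    {z : (ℕ → Bool) → X} (hz : ∀ g, IsSum (fun n => (u n : E)) (B g) (z g)) {ε : ℝ} (hε : 0 < ε) :
    {g | ε < ‖(T (z g) : E) k - ∑' m, (B g).indicator (fun m => (T (u m) : E) k) m‖}.Finite := by
  classical
  have hM0 : 0 ≤ M := (norm_nonneg _).trans (hM 0)
  by_contra hinf
  have hinf : Set.Infinite _ := hinf
  obtain ⟨N, hN⟩ := exists_nat_gt (2 * ‖T‖ * M / (ε / 2))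
  obtain ⟨s, hs, hcard⟩ := hinf.exists_subset_card_eq N
  have hsum := summable_apply T k hd hM
  -- choose the finite set
  obtain ⟨F1, hF1⟩ := (summable_iff_vanishing_norm.1 hsum) (ε / 2) (by linarith)
  have hfin : (⋃ g ∈ s, ⋃ g' ∈ s, if g = g' then (∅ : Set ℕ) else AD g ∩ AD g').Finite := by
    refine s.finite_toSet.biUnion fun g _ => s.finite_toSet.biUnion fun g' _ => ?_
    split_ifs with h
    · exact Set.finite_empty
    · exact AD_inter_finite h
  set F : Finset ℕ := F1 ∪ hfin.toFinset with hFdef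
  have hFint : ∀ g ∈ s, ∀ g' ∈ s, g ≠ g' → ∀ m, m ∈ AD g → m ∈ AD g' → m ∈ F := by
    intro g hg g' hg' hne m h1 h2
    rw [hFdef, Finset.mem_union]
    right
    rw [Set.Finite.mem_toFinset]
    simp only [Set.mem_iUnion]
    refine ⟨g, hg, g', hg', ?_⟩
    rw [if_neg hne]
    exact ⟨h1, h2⟩
  let w : (ℕ → Bool) → X := fun g => z g - ∑ m ∈ F.filter (· ∈ B g), u m
  have hwval : ∀ g n, ((w g : E) n ≠ 0 → ∃ m ∈ B g, m ∉ F ∧ (u m : E) n ≠ 0) ∧
      ((w g : E) n = 0 ∨ (w g : E) n = (z g : E) n) := by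
    intro g n
    have hw1 := isSum_finset (u := fun n => (u n : E)) hd (F.filter (· ∈ B g))
    have e : (w g : E) n = (z g : E) n - (∑ m ∈ F.filter (· ∈ B g), (u m : E) : E) n := by
      simp only [w]
      rw [Submodule.coe_sub, Submodule.coe_sum]
      simp
    rw [e]
    by_cases hc : ∃ m ∈ F.filter (· ∈ B g), (u m : E) n ≠ 0
    · obtain ⟨m, hm, hmn⟩ := hc
      have h1 : (∑ m ∈ F.filter (· ∈ B g), (u m : E) : E) n = (u m : E) n :=
        hw1.of_ne m (by simpa using hm) n hmn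
      have h2 : (z g : E) n = (u m : E) n := (hz g).of_ne m (Finset.mem_filter.1 hm).2 n hmn
      rw [h1, h2, sub_self]
      exact ⟨fun h => absurd rfl h, Or.inl rfl⟩
    · push Not at hc
      have h1 : (∑ m ∈ F.filter (· ∈ B g), (u m : E) : E) n = 0 :=
        hw1.of_eq n fun m hm => hc m (by simpa using hm)
      rw [h1, sub_zero]
      refine ⟨fun h => ?_, Or.inr rfl⟩
      obtain ⟨m, hm, hmn, _⟩ := (hz g).exists_of_ne h
      refine ⟨m, hm, fun hmF => ?_, hmn⟩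
      exact hmn (hc m (Finset.mem_filter.2 ⟨hmF, hm⟩))
  have hznorm : ∀ g n, ‖(z g : E) n‖ ≤ M := by
    intro g n
    by_cases h : (z g : E) n = 0
    · rw [h, norm_zero]; exact hM0
    · obtain ⟨m, _, _, h1⟩ := (hz g).exists_of_ne h
      rw [h1]
      exact (norm_apply_le _ _).trans (hM m)
  have hwnorm : ∀ g, ‖w g‖ ≤ M := by
    intro g
    refine (BoundedContinuousFunction.norm_le hM0).2 fun n => ?_
    show ‖(w g : E) n‖ ≤ M
    rcases (hwval g n).2 with h | h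
    · rw [h, norm_zero]; exact hM0
    · rw [h]; exact hznorm g n
  have hwd : ∀ i ∈ s, ∀ j ∈ s, i ≠ j → ∀ n, (w i : E) n = 0 ∨ (w j : E) n = 0 := by
    intro i hi j hj hij n
    by_contra hcon
    push Not at hcon
    obtain ⟨m, hm, hmF, hmn⟩ := (hwval i n).1 hcon.1
    obtain ⟨m', hm', _, hmn'⟩ := (hwval j n).1 hcon.2
    have hmm : m = m' := by
      by_contra hne
      rcases hd m m' hne n with h | h
      · exact hmn h
      · exact hmn' h
    subst hmm
    exact hmF (hFint i hi j hj hij m (hB i hm) (hB j hm'))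
  have h1 := sum_le T k s w hM0 (fun j _ => hwnorm j) hwd
  have h2 : ∀ g ∈ s, ε / 2 ≤ ‖(T (w g) : E) k‖ := by
    intro g hg
    have h3 : ε < ‖(T (z g) : E) k - ∑' m, (B g).indicator (fun m => (T (u m) : E) k) m‖ := hs hg
    set a : ℕ → ℂ := fun m => (T (u m) : E) k with ha
    have hsa : Summable fun m => ‖(B g).indicator a m‖ :=
      hsum.of_nonneg_of_le (fun _ => norm_nonneg _) fun m => by
        by_cases hm : m ∈ B g
        · rw [Set.indicator_of_mem hm]
        · rw [Set.indicator_of_notMem hm, norm_zero]; exact norm_nonneg _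
    have e1 : (T (w g) : E) k = (T (z g) : E) k - ∑ m ∈ F, (B g).indicator a m := by
      simp only [w]
      rw [map_sub, map_sum, Submodule.coe_sub, Submodule.coe_sum]
      simp only [BoundedContinuousFunction.coe_sub, Pi.sub_apply,
        BoundedContinuousFunction.coe_sum, Finset.sum_apply]
      congr 1
      rw [Finset.sum_filter]
      apply Finset.sum_congr rfl
      intro m _
      by_cases hm : m ∈ B g
      · rw [if_pos hm, Set.indicator_of_mem hm]
      · rw [if_neg hm, Set.indicator_of_notMem hm]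
    have e2 := hsa.of_norm.sum_add_tsum_compl (s := F)
    have h4 : ‖∑' m : ↑(↑F : Set ℕ)ᶜ, (B g).indicator a m‖ ≤ ε / 2 := by
      have hs2 : Summable fun m : ↑(↑F : Set ℕ)ᶜ => ‖(B g).indicator a m‖ :=
        hsa.subtype _
      refine (norm_tsum_le_tsum_norm hs2).trans ?_
      refine hs2.tsum_le_of_sum_le fun t => ?_
      have h5 := hF1 (t.map (Function.Embedding.subtype _)) (by
        rw [Finset.disjoint_left]
        intro x hx hx1
        obtain ⟨⟨y, hy⟩, _, rfl⟩ := Finset.mem_map.1 hx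
        apply hy
        exact Finset.mem_union_left _ hx1)
      rw [Finset.sum_map, Real.norm_of_nonneg (Finset.sum_nonneg fun _ _ => norm_nonneg _)] at h5
      refine le_trans (Finset.sum_le_sum fun m _ => ?_) h5.le
      by_cases hm : (m : ℕ) ∈ B g
      · rw [Set.indicator_of_mem hm]; rfl
      · rw [Set.indicator_of_notMem hm, norm_zero]; exact norm_nonneg _
    rw [e1]
    rw [← e2] at h3
    have h6 := norm_sub_norm_le ((T (z g) : E) k - ∑ m ∈ F, (B g).indicator a m)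
      ((T (z g) : E) k - ∑ m ∈ F, (B g).indicator a m -
      ((T (z g) : E) k - (∑ m ∈ F, (B g).indicator a m + ∑' m : ↑(↑F : Set ℕ)ᶜ,
        (B g).indicator a m)))
    have h7 := norm_sub_le ((T (z g) : E) k - ∑ m ∈ F, (B g).indicator a m)
      (∑' m : ↑(↑F : Set ℕ)ᶜ, (B g).indicator a m)
    have e3 : (T (z g) : E) k - (∑ m ∈ F, (B g).indicator a m + ∑' m : ↑(↑F : Set ℕ)ᶜ,
        (B g).indicator a m) = (T (z g) : E) k - ∑ m ∈ F, (B g).indicator a m -
        ∑' m : ↑(↑F : Set ℕ)ᶜ, (B g).indicator a m := by ring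
    rw [e3] at h3
    linarith
  have h3 : (N : ℝ) * (ε / 2) ≤ 2 * ‖T‖ * M := by
    calc (N : ℝ) * (ε / 2) = ∑ _g ∈ s, ε / 2 := by rw [Finset.sum_const, hcard, nsmul_eq_mul]
      _ ≤ ∑ g ∈ s, ‖(T (w g) : E) k‖ := Finset.sum_le_sum h2
      _ ≤ _ := h1
  rw [div_lt_iff₀ (by linarith)] at hN
  linarith

lemma mk_branch : #(ℕ → Bool) = 𝔠 := by simp

lemma exists_good_branch (T : X →L[ℝ] X) {u : ℕ → X} (hd : DisjX u) {M : ℝ}
    (hM : ∀ n, ‖u n‖ ≤ M) {B : (ℕ → Bool) → Set ℕ} (hB : ∀ g, B g ⊆ AD g)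
    {z : (ℕ → Bool) → X} (hz : ∀ g, IsSum (fun n => (u n : E)) (B g) (z g)) :
    ∃ g, ∀ k, (T (z g) : E) k = ∑' m, (B g).indicator (fun m => (T (u m) : E) k) m := by
  by_contra hcon
  push Not at hcon
  have h1 : (Set.univ : Set (ℕ → Bool)) ⊆ ⋃ k : ℕ, ⋃ n : ℕ, {g | (1 : ℝ) / (n + 1) <
      ‖(T (z g) : E) k - ∑' m, (B g).indicator (fun m => (T (u m) : E) k) m‖} := by
    intro g _
    obtain ⟨k, hk⟩ := hcon g
    have h2 : 0 < ‖(T (z g) : E) k - ∑' m, (B g).indicator (fun m => (T (u m) : E) k) m‖ :=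
      norm_pos_iff.2 (sub_ne_zero.2 hk)
    obtain ⟨n, hn⟩ := exists_nat_one_div_lt h2
    exact Set.mem_iUnion.2 ⟨k, Set.mem_iUnion.2 ⟨n, hn⟩⟩
  have h2 : (Set.univ : Set (ℕ → Bool)).Countable := by
    refine Set.Countable.mono h1 (Set.countable_iUnion fun k => Set.countable_iUnion fun n => ?_)
    exact (singular_finite T k hd hM hB hz (by positivity)).countable
  have h3 : Countable (ℕ → Bool) := Set.countable_univ_iff.1 h2
  have h4 : #(ℕ → Bool) ≤ ℵ₀ := Cardinal.mk_le_aleph0_iff.2 h3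
  rw [mk_branch] at h4
  exact absurd h4 (not_le.2 Cardinal.aleph0_lt_continuum)

lemma tail_bound {a : ℕ → ℂ} (hs : Summable fun m => ‖a m‖) (B : Set ℕ) (n₀ : ℕ) {ε : ℝ}
    (h : ∀ F : Finset ℕ, n₀ ∉ F → ∑ m ∈ F, ‖a m‖ ≤ ε) :
    ‖B.indicator a n₀ - ∑' m, B.indicator a m‖ ≤ ε := by
  classical
  have hsa : Summable fun m => ‖B.indicator a m‖ :=
    hs.of_nonneg_of_le (fun _ => norm_nonneg _) fun m => by
      by_cases hm : m ∈ B
      · rw [Set.indicator_of_mem hm]
      · rw [Set.indicator_of_notMem hm, norm_zero]; exact norm_nonneg _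
  rw [hsa.of_norm.tsum_eq_add_tsum_ite n₀, sub_add_cancel_left, norm_neg]
  have hle : ∀ m, ‖ite (m = n₀) 0 (B.indicator a m)‖ ≤ ‖a m‖ := by
    intro m
    split_ifs
    · rw [norm_zero]; exact norm_nonneg _
    · by_cases hm : m ∈ B
      · rw [Set.indicator_of_mem hm]
      · rw [Set.indicator_of_notMem hm, norm_zero]; exact norm_nonneg _
  have hs2 : Summable fun m => ‖ite (m = n₀) 0 (B.indicator a m)‖ :=
    hs.of_nonneg_of_le (fun _ => norm_nonneg _) hle
  refine (norm_tsum_le_tsum_norm hs2).trans (hs2.tsum_le_of_sum_le fun t => ?_)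
  calc ∑ m ∈ t, ‖ite (m = n₀) 0 (B.indicator a m)‖
      = ∑ m ∈ t.erase n₀, ‖ite (m = n₀) 0 (B.indicator a m)‖ := by
        rw [Finset.sum_erase]; simp
    _ ≤ ∑ m ∈ t.erase n₀, ‖a m‖ := Finset.sum_le_sum fun m _ => hle m
    _ ≤ ε := h _ (Finset.notMem_erase _ _)

/-- The generic property of the space. -/
def Generic (X : Submodule ℂ E) : Prop :=
  ∀ τ : Task, τ.Valid X → ∃ f : ℕ → Bool, ∃ z ∈ X, IsSum τ.u (AD f) z ∧
      PH (target τ.p τ.q τ.s τ.t (AD f)) τ.δ X

lemma kill0 (hX : Generic X) (T : X →L[ℝ] X) {u : ℕ → X} (hd : DisjX u) {M : ℝ}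
    (hM : ∀ n, ‖u n‖ ≤ M) (p q : ℕ → ℕ) {δ : ℝ} (hδ : 0 < δ)
    (hoff : ∀ n m, m ≠ n → (u m : E) (p n) = 0 ∧ (u m : E) (q n) = 0)
    (hcond : ∀ μ : ℂ, {n | ‖(T (u n) : E) (p n) - μ * (u n : E) (p n)‖ < 2 * δ ∧
      ‖(T (u n) : E) (q n) - μ * (u n : E) (q n)‖ < 2 * δ}.Finite)
    (hp : ∀ n (F : Finset ℕ), n ∉ F → ∑ m ∈ F, ‖(T (u m) : E) (p n)‖ ≤ δ / 2)
    (hq : ∀ n (F : Finset ℕ), n ∉ F → ∑ m ∈ F, ‖(T (u m) : E) (q n)‖ ≤ δ / 2) : False := by
  let τ : (ℕ → Bool) → Task := fun g =>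
    { u := fun n => (u (adSeq g n) : E)
      p := fun n => p (adSeq g n)
      q := fun n => q (adSeq g n)
      s := fun n => (T (u (adSeq g n)) : E) (p (adSeq g n))
      t := fun n => (T (u (adSeq g n)) : E) (q (adSeq g n))
      δ := δ }
  have hτ : ∀ g, (τ g).Valid X := by
    intro g
    refine ⟨fun n => (u (adSeq g n)).2, fun n m hnm => hd _ _ ((adSeq_injective g).ne hnm),
      ⟨M, fun n => hM _⟩, fun n m hnm => hoff _ _ ((adSeq_injective g).ne hnm), fun μ => ?_⟩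
    exact (hcond μ).preimage (adSeq_injective g).injOn
  choose f z hzX hz hPH using fun g => hX (τ g) (hτ g)
  let B : (ℕ → Bool) → Set ℕ := fun g => adSeq g '' AD (f g)
  have hB : ∀ g, B g ⊆ AD g := by
    rintro g _ ⟨n, _, rfl⟩
    exact ⟨n, rfl⟩
  have hz2 : ∀ g, IsSum (fun n => (u n : E)) (B g) (z g) := by
    intro g
    constructor
    · rintro _ ⟨n, hn, rfl⟩ k hk
      exact (hz g).of_ne n hn k hk
    · intro k hk
      exact (hz g).of_eq k fun n hn => hk _ ⟨n, hn, rfl⟩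
  obtain ⟨g, hg⟩ := exists_good_branch T hd hM hB (z := fun g => ⟨z g, hzX g⟩) hz2
  obtain ⟨r, hr, h1⟩ := hPH g (T ⟨z g, hzX g⟩) (T ⟨z g, hzX g⟩).2 (δ / 2)
    (show δ / 2 < δ by linarith)
  have key : ∀ (k n : ℕ), (∀ F : Finset ℕ, adSeq g n ∉ F → ∑ m ∈ F, ‖(T (u m) : E) k‖ ≤ δ / 2) →
      ‖(AD (f g)).indicator (fun n => (T (u (adSeq g n)) : E) k) n -
        (T ⟨z g, hzX g⟩ : E) k‖ ≤ δ / 2 := by
    intro k n hF
    have h2 := tail_bound (summable_apply T k hd hM) (B g) (adSeq g n) hF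
    rw [← hg k] at h2
    have e : (B g).indicator (fun m => (T (u m) : E) k) (adSeq g n) =
        (AD (f g)).indicator (fun n => (T (u (adSeq g n)) : E) k) n := by
      by_cases hn : n ∈ AD (f g)
      · rw [Set.indicator_of_mem hn, Set.indicator_of_mem (show adSeq g n ∈ B g from ⟨n, hn, rfl⟩)]
      · rw [Set.indicator_of_notMem hn, Set.indicator_of_notMem]
        rintro ⟨m, hm, hmn⟩
        exact hn ((adSeq_injective g hmn) ▸ hm)
    rw [← e]
    exact h2
  obtain ⟨n, rfl | rfl⟩ := hr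
  · have h2 := key (p (adSeq g n)) n (hp _)
    have e : (AD (f g)).indicator (fun n' => (T (u (adSeq g n')) : E) (p (adSeq g n))) n =
        (AD (f g)).indicator (fun n => (T (u (adSeq g n)) : E) (p (adSeq g n))) n := by
      by_cases hn : n ∈ AD (f g)
      · rw [Set.indicator_of_mem hn, Set.indicator_of_mem hn]
      · rw [Set.indicator_of_notMem hn, Set.indicator_of_notMem hn]
    rw [e] at h2
    exact absurd h1 (not_lt.2 h2)
  · have h2 := key (q (adSeq g n)) n (hq _)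
    have e : (AD (f g)).indicator (fun n' => (T (u (adSeq g n')) : E) (q (adSeq g n))) n =
        (AD (f g)).indicator (fun n => (T (u (adSeq g n)) : E) (q (adSeq g n))) n := by
      by_cases hn : n ∈ AD (f g)
      · rw [Set.indicator_of_mem hn, Set.indicator_of_mem hn]
      · rw [Set.indicator_of_notMem hn, Set.indicator_of_notMem hn]
    rw [e] at h2
    exact absurd h1 (not_lt.2 h2)

lemma kill (hX : Generic X) (T : X →L[ℝ] X) {u : ℕ → X} (hd : DisjX u) {M : ℝ}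
    (hM : ∀ n, ‖u n‖ ≤ M) (p q : ℕ → ℕ) {δ : ℝ} (hδ : 0 < δ)
    (hcond : ∀ μ : ℂ, {n | ‖(T (u n) : E) (p n) - μ * (u n : E) (p n)‖ < 2 * δ ∧
      ‖(T (u n) : E) (q n) - μ * (u n : E) (q n)‖ < 2 * δ}.Finite) : False := by
  classical
  have hM0 : 0 ≤ M := (norm_nonneg _).trans (hM 0)
  let b : ℕ → ℕ → ℝ := fun k m => if (u m : E) k = 0 then 0 else 1
  have hb0 : ∀ k m, 0 ≤ b k m := by
    intro k m; simp only [b]; split_ifs <;> norm_num
  have hb : ∀ k (F : Finset ℕ), ∑ m ∈ F, b k m ≤ 1 := by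
    intro k F
    by_cases h : ∃ m ∈ F, (u m : E) k ≠ 0
    · obtain ⟨m, hm, hmk⟩ := h
      rw [Finset.sum_eq_single_of_mem m hm]
      · simp only [b]; split_ifs <;> norm_num
      · intro j _ hj
        simp only [b]
        rcases hd j m hj k with h1 | h1
        · rw [if_pos h1]
        · exact absurd h1 hmk
    · push Not at h
      rw [Finset.sum_eq_zero]
      · exact zero_le_one
      · intro j hj
        simp only [b]
        rw [if_pos (h j hj)]
  let a : ℕ → ℕ → ℝ := fun n m => ‖(T (u m) : E) (p n)‖ + ‖(T (u m) : E) (q n)‖ +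
    (b (p n) m + b (q n) m)
  set ε : ℝ := min (δ / 2) (1 / 2) with hεdef
  have hε : 0 < ε := lt_min (by linarith) (by norm_num)
  obtain ⟨c, hc⟩ := exists_nat_gt ((4 * ‖T‖ * M + 2) / ε)
  rw [div_lt_iff₀ hε] at hc
  have ha : ∀ n m, 0 ≤ a n m := fun n m => by
    simp only [a]
    have := hb0 (p n) m
    have := hb0 (q n) m
    positivity
  have hTs : ∀ k (F : Finset ℕ), ∑ m ∈ F, ‖(T (u m) : E) k‖ ≤ 2 * ‖T‖ * M := fun k F =>
    sum_le T k F u hM0 (fun j _ => hM j) fun i _ j _ hij => hd i j hij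
  obtain ⟨ψ, hψ, hψ2⟩ := rosenthal hε c a ha (by
    intro n F
    simp only [a, Finset.sum_add_distrib]
    have h1 := hTs (p n) F
    have h2 := hTs (q n) F
    have h3 := hb (p n) F
    have h4 := hb (q n) F
    linarith)
  have hpart : ∀ n (F : Finset ℕ), n ∉ F →
      ∑ m ∈ F, ‖(T (u (ψ m)) : E) (p (ψ n))‖ + ∑ m ∈ F, ‖(T (u (ψ m)) : E) (q (ψ n))‖ +
      (∑ m ∈ F, b (p (ψ n)) (ψ m) + ∑ m ∈ F, b (q (ψ n)) (ψ m)) ≤ ε := by
    intro n F hn
    have := hψ2 n F hn
    simpa only [a, Finset.sum_add_distrib] using this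
  have hTnn : ∀ k (F : Finset ℕ), 0 ≤ ∑ m ∈ F, ‖(T (u (ψ m)) : E) k‖ := fun k F =>
    Finset.sum_nonneg fun _ _ => norm_nonneg _
  have hbnn : ∀ k (F : Finset ℕ), 0 ≤ ∑ m ∈ F, b k (ψ m) := fun k F =>
    Finset.sum_nonneg fun _ _ => hb0 _ _
  refine kill0 hX T (u := fun n => u (ψ n)) (fun n m hnm => hd _ _ (hψ.ne hnm))
    (fun n => hM _) (fun n => p (ψ n)) (fun n => q (ψ n)) hδ ?_ ?_ ?_ ?_
  · intro n m hmn
    have h1 := hpart n {m} (by simpa using hmn.symm)
    have h2 := hTnn (p (ψ n)) {m}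
    have h3 := hTnn (q (ψ n)) {m}
    simp only [Finset.sum_singleton] at h1 h2 h3
    have h4 := hb0 (p (ψ n)) (ψ m)
    have h5 := hb0 (q (ψ n)) (ψ m)
    have h6 : ε ≤ 1 / 2 := min_le_right _ _
    constructor
    · by_contra hne
      have : b (p (ψ n)) (ψ m) = 1 := by simp only [b]; rw [if_neg hne]
      linarith
    · by_contra hne
      have : b (q (ψ n)) (ψ m) = 1 := by simp only [b]; rw [if_neg hne]
      linarith
  · intro μ
    exact (hcond μ).preimage hψ.injOn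
  · intro n F hn
    have h1 := hpart n F hn
    have h3 := hTnn (q (ψ n)) F
    have h4 := hbnn (p (ψ n)) F
    have h5 := hbnn (q (ψ n)) F
    have h6 : ε ≤ δ / 2 := min_le_left _ _
    linarith
  · intro n F hn
    have h1 := hpart n F hn
    have h3 := hTnn (p (ψ n)) F
    have h4 := hbnn (p (ψ n)) F
    have h5 := hbnn (q (ψ n)) F
    have h6 : ε ≤ δ / 2 := min_le_left _ _
    linarith

end Pool.Agent.Helper41.FewOps
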