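import Pool.Agent.Helper41.FewOps.Oper

open scoped BoundedContinuousFunction Cardinal Topology
open BoundedContinuousFunction Filter

namespace Pool.Agent.Helper41.FewOps

lemma extract {F : Type*} [NormedAddCommGroup F] {a : ℕ → F} (h : ¬ Tendsto a atTop (𝓝 0)) :
    ∃ ε : ℝ, 0 < ε ∧ ∃ φ : ℕ → ℕ, StrictMono φ ∧ ∀ n, ε ≤ ‖a (φ n)‖ := by
  rw [Metric.tendsto_atTop] at h
  push Not at h
  obtain ⟨ε, hε, h⟩ := h
  refine ⟨ε, hε, ?_⟩
  have h1 : ∃ᶠ n in atTop, ε ≤ ‖a n‖ := by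
    rw [frequently_atTop]
    intro N
    obtain ⟨n, hn, h2⟩ := h N
    refine ⟨n, hn, ?_⟩
    rwa [dist_zero_right] at h2
  exact extraction_of_frequently_atTop h1

variable {X : Submodule ℂ E}

lemma finite_of_eventually {P : ℕ → Prop} (h : ∀ᶠ n in atTop, ¬ P n) : {n | P n}.Finite := by
  rw [← Nat.cofinite_eq_atTop] at h
  have := Filter.eventually_cofinite.1 h
  simpa using this

lemma lemmaA (hX : Generic X) (T : X →L[ℝ] X) {u : ℕ → X} (hd : DisjX u) {M : ℝ}
    (hM : ∀ n, ‖u n‖ ≤ M) {p : ℕ → ℕ} (hp : Tendsto (fun n => (u n : E) (p n)) atTop (𝓝 0)) :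
    Tendsto (fun n => (T (u n) : E) (p n)) atTop (𝓝 0) := by
  by_contra hcon
  obtain ⟨ε, hε, φ, hφ, h⟩ := extract hcon
  refine kill hX T (u := fun n => u (φ n)) (fun n m hnm => hd _ _ (hφ.injective.ne hnm))
    (fun n => hM _) (fun n => p (φ n)) (fun n => p (φ n)) (δ := ε / 4) (by linarith) ?_
  intro μ
  have h1 : Tendsto (fun n => μ * (u (φ n) : E) (p (φ n))) atTop (𝓝 0) := by
    have := (hp.comp hφ.tendsto_atTop).const_mul μ
    simpa using this
  apply finite_of_eventually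
  have h2 := (Metric.tendsto_atTop.1 h1) (ε / 2) (by linarith)
  obtain ⟨N, hN⟩ := h2
  filter_upwards [eventually_ge_atTop N] with n hn hcon2
  have h3 := hN n hn
  rw [dist_zero_right] at h3
  have h4 := h n
  have h5 := hcon2.1
  have h6 := norm_sub_norm_le ((T (u (φ n)) : E) (p (φ n))) (μ * (u (φ n) : E) (p (φ n)))
  linarith

lemma lemmaB (hX : Generic X) (T : X →L[ℝ] X) {x y : ℕ → X} (hx : DisjX x) (hy : DisjX y)
    (hxy : ∀ n m k, (x n : E) k = 0 ∨ (y m : E) k = 0) {M : ℝ}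
    (hxM : ∀ n, ‖x n‖ ≤ M) (hyM : ∀ n, ‖y n‖ ≤ M) {k l : ℕ → ℕ} {r : ℝ} (hr : 0 < r)
    (hk : ∀ n, r ≤ ‖(x n : E) (k n)‖) (hl : ∀ n, r ≤ ‖(y n : E) (l n)‖) :
    Tendsto (fun n => (T (x n) : E) (k n) / (x n : E) (k n) -
      (T (y n) : E) (l n) / (y n : E) (l n)) atTop (𝓝 0) := by
  by_contra hcon
  obtain ⟨ε, hε, φ, hφ, h⟩ := extract hcon
  have hxk : ∀ n, (x n : E) (k n) ≠ 0 := fun n h0 => by
    have := hk n; rw [h0, norm_zero] at this; linarith
  have hyl : ∀ n, (y n : E) (l n) ≠ 0 := fun n h0 => by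
    have := hl n; rw [h0, norm_zero] at this; linarith
  have hyk : ∀ n, (y n : E) (k n) = 0 := fun n => (hxy n n (k n)).resolve_left (hxk n)
  have hxl : ∀ n, (x n : E) (l n) = 0 := fun n => (hxy n n (l n)).resolve_right (hyl n)
  have hA1 : Tendsto (fun n => (T (y n) : E) (k n)) atTop (𝓝 0) :=
    lemmaA hX T hy hyM (by simp only [hyk]; exact tendsto_const_nhds)
  have hA2 : Tendsto (fun n => (T (x n) : E) (l n)) atTop (𝓝 0) :=
    lemmaA hX T hx hxM (by simp only [hxl]; exact tendsto_const_nhds)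
  have hdis : DisjX (fun n => x (φ n) + y (φ n)) := by
    intro n m hnm i
    have hne := hφ.injective.ne hnm
    have e : ∀ n, ((x (φ n) + y (φ n) : X) : E) i = (x (φ n) : E) i + (y (φ n) : E) i := fun n => by
      simp
    show ((x (φ n) + y (φ n) : X) : E) i = 0 ∨ ((x (φ m) + y (φ m) : X) : E) i = 0
    rw [e, e]
    by_contra hcon3
    push Not at hcon3
    have key : ∀ n, (x (φ n) : E) i + (y (φ n) : E) i ≠ 0 →
        (x (φ n) : E) i ≠ 0 ∨ (y (φ n) : E) i ≠ 0 := by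
      intro n hn
      by_contra h3
      push Not at h3
      exact hn (by rw [h3.1, h3.2, add_zero])
    rcases key n hcon3.1 with h1 | h1 <;> rcases key m hcon3.2 with h2 | h2
    · exact (hx _ _ hne i).elim h1 h2
    · exact (hxy _ _ i).elim h1 h2
    · exact (hxy _ _ i).elim h2 h1
    · exact (hy _ _ hne i).elim h1 h2
  have hbd : ∀ n, ‖x (φ n) + y (φ n)‖ ≤ 2 * M := fun n => by
    have := norm_add_le (x (φ n)) (y (φ n))
    have := hxM (φ n)
    have := hyM (φ n)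
    linarith
  refine kill hX T hdis hbd (fun n => k (φ n)) (fun n => l (φ n)) (δ := r * ε / 8)
    (by positivity) ?_
  intro μ
  apply finite_of_eventually
  obtain ⟨N1, hN1⟩ := (Metric.tendsto_atTop.1 hA1) (r * ε / 4) (by positivity)
  obtain ⟨N2, hN2⟩ := (Metric.tendsto_atTop.1 hA2) (r * ε / 4) (by positivity)
  filter_upwards [eventually_ge_atTop N1, eventually_ge_atTop N2] with n hn1 hn2 hcon2
  have hφn : n ≤ φ n := hφ.id_le n
  have h1 := hN1 (φ n) (hn1.trans hφn)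
  have h2 := hN2 (φ n) (hn2.trans hφn)
  rw [dist_zero_right] at h1 h2
  obtain ⟨h3, h4⟩ := hcon2
  have e1 : (T (x (φ n) + y (φ n)) : E) (k (φ n)) - μ * ((x (φ n) + y (φ n) : X) : E) (k (φ n)) =
      (x (φ n) : E) (k (φ n)) * ((T (x (φ n)) : E) (k (φ n)) / (x (φ n) : E) (k (φ n)) - μ) +
      (T (y (φ n)) : E) (k (φ n)) := by
    have := hxk (φ n)
    rw [map_add]
    simp only [Submodule.coe_add, BoundedContinuousFunction.coe_add, Pi.add_apply, hyk]
    field_simp
    ring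
  have e2 : (T (x (φ n) + y (φ n)) : E) (l (φ n)) - μ * ((x (φ n) + y (φ n) : X) : E) (l (φ n)) =
      (y (φ n) : E) (l (φ n)) * ((T (y (φ n)) : E) (l (φ n)) / (y (φ n) : E) (l (φ n)) - μ) +
      (T (x (φ n)) : E) (l (φ n)) := by
    have := hyl (φ n)
    rw [map_add]
    simp only [Submodule.coe_add, BoundedContinuousFunction.coe_add, Pi.add_apply, hxl]
    field_simp
    ring
  rw [e1] at h3
  rw [e2] at h4
  set α := (T (x (φ n)) : E) (k (φ n)) / (x (φ n) : E) (k (φ n)) with hα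
  set β := (T (y (φ n)) : E) (l (φ n)) / (y (φ n) : E) (l (φ n)) with hβ
  have h5 : r * ‖α - μ‖ ≤ ‖(x (φ n) : E) (k (φ n)) * (α - μ)‖ := by
    rw [norm_mul]
    exact mul_le_mul_of_nonneg_right (hk _) (norm_nonneg _)
  have h6 : r * ‖β - μ‖ ≤ ‖(y (φ n) : E) (l (φ n)) * (β - μ)‖ := by
    rw [norm_mul]
    exact mul_le_mul_of_nonneg_right (hl _) (norm_nonneg _)
  have h7 := norm_sub_norm_le ((x (φ n) : E) (k (φ n)) * (α - μ)) (-(T (y (φ n)) : E) (k (φ n)))
  have h8 := norm_sub_norm_le ((y (φ n) : E) (l (φ n)) * (β - μ)) (-(T (x (φ n)) : E) (l (φ n)))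
  rw [norm_neg, sub_neg_eq_add] at h7 h8
  have h9 := h n
  have h10 := norm_sub_le (α - μ) (β - μ)
  rw [sub_sub_sub_cancel_right] at h10
  have h11 : r * ε ≤ r * (‖α - μ‖ + ‖β - μ‖) :=
    mul_le_mul_of_nonneg_left (h9.trans h10) hr.le
  rw [mul_add] at h11
  linarith

/-- The `j`-th residue class in a disjoint sequence inside `V a m`. -/
def W (a m j : ℕ) : Set ℕ := V (a + 2 ^ (m + j)) (m + j + 1)

lemma W_subset (a m j : ℕ) : W a m j ⊆ V a m := by
  intro n hn
  have h1 : n ∈ V (a + 2 ^ (m + j)) m := V_anti (by omega) hn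
  have h2 : (a + 2 ^ (m + j)) % 2 ^ m = a % 2 ^ m := by
    rw [pow_add, Nat.add_mul_mod_self_left]
  show n % 2 ^ m = a % 2 ^ m
  rw [← h2]
  exact h1

lemma W_disjoint {a m i j : ℕ} (hij : i < j) {n : ℕ} (hi : n ∈ W a m i) (hj : n ∈ W a m j) :
    False := by
  have h1 : n ∈ V (a + 2 ^ (m + j)) (m + i + 1) := V_anti (by omega) hj
  have h1' : n % 2 ^ (m + i + 1) = (a + 2 ^ (m + j)) % 2 ^ (m + i + 1) := h1
  have h2 : (a + 2 ^ (m + j)) % 2 ^ (m + i + 1) = a % 2 ^ (m + i + 1) := by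
    have e : m + j = (m + i + 1) + (j - i - 1) := by omega
    rw [e, pow_add, Nat.add_mul_mod_self_left]
  have h3 : n % 2 ^ (m + i + 1) = (a + 2 ^ (m + i)) % 2 ^ (m + i + 1) := hi
  rw [h1', h2] at h3
  have h4 : a ≡ a + 2 ^ (m + i) [MOD 2 ^ (m + i + 1)] := h3
  have h5 : 2 ^ (m + i + 1) ∣ 2 ^ (m + i) := by
    have := (Nat.modEq_iff_dvd' (Nat.le_add_right a _)).1 h4
    simpa using this
  have h6 := Nat.le_of_dvd (by positivity) h5
  have h7 : 2 ^ (m + i) < 2 ^ (m + i + 1) := Nat.pow_lt_pow_right (by norm_num) (by omega)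
  omega

lemma self_mem_W (a m j : ℕ) : a + 2 ^ (m + j) ∈ W a m j := rfl

lemma parity_disjoint {n : ℕ} (h0 : n ∈ V 0 1) (h1 : n ∈ V 1 1) : False := by
  have h0' : n % 2 ^ 1 = 0 % 2 ^ 1 := h0
  have h1' : n % 2 ^ 1 = 1 % 2 ^ 1 := h1
  omega

/-- The indicator of a residue class as a member of `X`. -/
noncomputable def indX (hind : ∀ a m, ind (V a m) ∈ X) (a m : ℕ) : X := ⟨ind (V a m), hind a m⟩

lemma norm_indX_le (hind : ∀ a m, ind (V a m) ∈ X) (a m : ℕ) : ‖indX hind a m‖ ≤ 1 :=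
  norm_ind_le _

/-- The reference sequences. -/
noncomputable def ref (hind : ∀ a m, ind (V a m) ∈ X) (b j : ℕ) : X :=
  indX hind (b + 2 ^ (1 + j)) (1 + j + 1)

lemma ref_apply_of_mem (hind : ∀ a m, ind (V a m) ∈ X) {b j n : ℕ} (h : n ∈ W b 1 j) :
    (ref hind b j : E) n = 1 := ind_apply_of_mem h

lemma ref_apply_of_notMem (hind : ∀ a m, ind (V a m) ∈ X) {b j n : ℕ} (h : n ∉ W b 1 j) :
    (ref hind b j : E) n = 0 := ind_apply_of_notMem h

lemma ref_disj (hind : ∀ a m, ind (V a m) ∈ X) (b : ℕ) {φ : ℕ → ℕ} (hφ : Function.Injective φ) :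
    DisjX (fun n => ref hind b (φ n)) := by
  intro n m hnm k
  by_contra hcon
  push Not at hcon
  obtain ⟨h1, h2⟩ := hcon
  have h3 : k ∈ W b 1 (φ n) := by
    by_contra h; exact h1 (ref_apply_of_notMem hind h)
  have h4 : k ∈ W b 1 (φ m) := by
    by_contra h; exact h2 (ref_apply_of_notMem hind h)
  rcases lt_trichotomy (φ n) (φ m) with h | h | h
  · exact W_disjoint h h3 h4
  · exact hnm (hφ h)
  · exact W_disjoint h h4 h3

/-- The scalar attached to an operator. -/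
lemma exists_scalar (hX : Generic X) (hind : ∀ a m, ind (V a m) ∈ X) (T : X →L[ℝ] X) :
    ∃ c : ℂ, ∀ b : ℕ, (b = 0 ∨ b = 1) → ∀ (x : ℕ → X) (M : ℝ) (k : ℕ → ℕ) (r : ℝ), DisjX x →
      (∀ n, ‖x n‖ ≤ M) → 0 < r → (∀ n, r ≤ ‖(x n : E) (k n)‖) →
      (∀ n i, (x n : E) i ≠ 0 → i ∈ V b 1) →
      Tendsto (fun n => (T (x n) : E) (k n) / (x n : E) (k n)) atTop (𝓝 c) := by
  -- cluster point along the even reference sequence
  have hb : Bornology.IsBounded (Set.range fun n => (T (ref hind 0 n) : E) (0 + 2 ^ (1 + n))) := by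
    rw [isBounded_iff_forall_norm_le]
    refine ⟨‖T‖, ?_⟩
    rintro _ ⟨n, rfl⟩
    refine (norm_apply_le _ _).trans ?_
    have h1 : ‖T (ref hind 0 n)‖ ≤ ‖T‖ * ‖ref hind 0 n‖ := T.le_opNorm _
    have h2 : ‖ref hind 0 n‖ ≤ 1 := norm_indX_le hind _ _
    calc ‖T (ref hind 0 n)‖ ≤ ‖T‖ * ‖ref hind 0 n‖ := h1
      _ ≤ ‖T‖ * 1 := mul_le_mul_of_nonneg_left h2 (norm_nonneg T)
      _ = ‖T‖ := mul_one _
  obtain ⟨c, _, φ, hφ, hc⟩ := tendsto_subseq_of_bounded hb (x := fun n =>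
    (T (ref hind 0 n) : E) (0 + 2 ^ (1 + n))) (fun n => ⟨n, rfl⟩)
  have main : ∀ (b b' : ℕ), (∀ i, i ∈ V b 1 → i ∈ V b' 1 → False) → ∀ (φ : ℕ → ℕ),
      StrictMono φ → Tendsto (fun n => (T (ref hind b' (φ n)) : E) (b' + 2 ^ (1 + φ n))) atTop
        (𝓝 c) → ∀ (x : ℕ → X) (M : ℝ) (k : ℕ → ℕ) (r : ℝ), DisjX x →
      (∀ n, ‖x n‖ ≤ M) → 0 < r → (∀ n, r ≤ ‖(x n : E) (k n)‖) →
      (∀ n i, (x n : E) i ≠ 0 → i ∈ V b 1) →
      Tendsto (fun n => (T (x n) : E) (k n) / (x n : E) (k n)) atTop (𝓝 c) := by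
    intro b b' hbb φ hφ hc x M k r hx hM hr hk hsupp
    have h1 := lemmaB hX T (x := x) (y := fun n => ref hind b' (φ n)) hx
      (ref_disj hind b' hφ.injective) (by
        intro n m i
        by_contra hcon
        push Not at hcon
        obtain ⟨h1, h2⟩ := hcon
        have h3 : i ∈ W b' 1 (φ m) := by
          by_contra h; exact h2 (ref_apply_of_notMem hind h)
        exact hbb i (hsupp n i h1) (W_subset _ _ _ h3)) (M := max M 1)
      (fun n => (hM n).trans (le_max_left _ _))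
      (fun n => (norm_indX_le hind _ _).trans (le_max_right _ _))
      (k := k) (l := fun n => b' + 2 ^ (1 + φ n)) (r := min r 1) (lt_min hr one_pos)
      (fun n => (min_le_left _ _).trans (hk n)) (fun n => by
        rw [ref_apply_of_mem hind (self_mem_W _ _ _)]
        simp)
    have h2 : ∀ n, (ref hind b' (φ n) : E) (b' + 2 ^ (1 + φ n)) = 1 := fun n =>
      ref_apply_of_mem hind (self_mem_W _ _ _)
    simp only [h2, div_one] at h1
    have h3 := h1.add hc
    simpa using h3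
  have hodd := main 1 0 (fun i h1 h0 => parity_disjoint h0 h1) φ hφ hc
  have href : Tendsto (fun n => (T (ref hind 1 (id n)) : E) (1 + 2 ^ (1 + id n))) atTop (𝓝 c) := by
    have h1 := hodd (fun n => ref hind 1 n) 1 (fun n => 1 + 2 ^ (1 + n)) 1
      (ref_disj hind 1 Function.injective_id) (fun n => norm_indX_le hind _ _) one_pos (fun n => by
        rw [ref_apply_of_mem hind (self_mem_W _ _ _)]
        simp) (by
        intro n i hi
        have h3 : i ∈ W 1 1 n := by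
          by_contra h; exact hi (ref_apply_of_notMem hind h)
        exact W_subset _ _ _ h3)
    have h2 : ∀ n, (ref hind 1 n : E) (1 + 2 ^ (1 + n)) = 1 := fun n =>
      ref_apply_of_mem hind (self_mem_W _ _ _)
    simp only [h2, div_one] at h1
    exact h1
  have heven := main 0 1 (fun i h0 h1 => parity_disjoint h0 h1) id strictMono_id href
  refine ⟨c, ?_⟩
  rintro b (rfl | rfl)
  · exact heven
  · exact hodd

lemma exists_large (x : X) {ε : ℝ} (hε : ε < ‖x‖) : ∃ k, ε < ‖(x : E) k‖ := by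
  by_contra hcon
  push Not at hcon
  have h0 : 0 ≤ ε := (norm_nonneg _).trans (hcon 0)
  have : ‖(x : E)‖ ≤ ε := (BoundedContinuousFunction.norm_le h0).2 hcon
  exact absurd hε (not_lt.2 this)

lemma jqc_pair (hJ : JQC (X : Set E)) (x y : X) (k : ℕ) {ε : ℝ} (hε : 0 < ε) :
    ∃ a m, ∀ n ∈ V a m, ‖(x : E) n - (x : E) k‖ < ε ∧ ‖(y : E) n - (y : E) k‖ < ε :=
  hJ _ ((Ctl.of_mem x.2 hε).and (Ctl.of_mem y.2 hε)) k

theorem small (hX : Generic X) (hind : ∀ a m, ind (V a m) ∈ X) (hJ : JQC (X : Set E))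
    (T : X →L[ℝ] X) : ∃ c : ℂ, ∀ (u : ℕ → X) (M : ℝ), DisjX u → (∀ n, ‖u n‖ ≤ M) →
      Tendsto (fun n => T (u n) - c • u n) atTop (𝓝 0) := by
  obtain ⟨c, hc⟩ := exists_scalar hX hind T
  refine ⟨c, fun u M hd hM => ?_⟩
  by_contra hcon
  obtain ⟨ε, hε, φ, hφ, h⟩ := extract hcon
  -- points
  have hk : ∀ n, ∃ k, ε / 2 < ‖((T (u (φ n)) - c • u (φ n) : X) : E) k‖ := fun n =>
    exists_large _ (by linarith [h n])
  choose k hk using hk
  have hb : Bornology.IsBounded (Set.range fun n => (u (φ n) : E) (k n)) := by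
    rw [isBounded_iff_forall_norm_le]
    refine ⟨M, ?_⟩
    rintro _ ⟨n, rfl⟩
    exact (norm_apply_le _ _).trans (hM _)
  obtain ⟨d, _, φ', hφ', hd'⟩ := tendsto_subseq_of_bounded hb (x := fun n =>
    (u (φ n) : E) (k n)) (fun n => ⟨n, rfl⟩)
  -- pass to the subsequence
  set v : ℕ → X := fun n => u (φ (φ' n)) with hv
  set l : ℕ → ℕ := fun n => k (φ' n) with hl
  have hvd : DisjX v := fun n m hnm => hd _ _ ((hφ.injective.comp hφ'.injective).ne hnm)
  have hvM : ∀ n, ‖v n‖ ≤ M := fun n => hM _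
  have hvl : Tendsto (fun n => (v n : E) (l n)) atTop (𝓝 d) := hd'
  have hbig : ∀ n, ε / 2 < ‖(T (v n) : E) (l n) - c * (v n : E) (l n)‖ := by
    intro n
    have := hk (φ' n)
    simpa using this
  by_cases hd0 : d = 0
  · subst hd0
    have h1 := lemmaA hX T hvd hvM hvl
    have h2 := h1.sub (hvl.const_mul c)
    rw [mul_zero, sub_zero] at h2
    obtain ⟨N, hN⟩ := (Metric.tendsto_atTop.1 h2) (ε / 2) (by linarith)
    have h3 := hN N le_rfl
    rw [dist_zero_right] at h3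
    exact absurd (hbig N) (not_lt.2 h3.le)
  · have hdpos : 0 < ‖d‖ := norm_pos_iff.2 hd0
    set r : ℝ := ‖d‖ / 2 with hr
    have hrpos : 0 < r := by positivity
    have hev : ∀ᶠ n in atTop, r ≤ ‖(v n : E) (l n)‖ := by
      have h1 := hvl.norm
      exact (h1.eventually (lt_mem_nhds (show r < ‖d‖ by rw [hr]; linarith))).mono fun n hn => hn.le
    have hJQ : ∀ n : ℕ, ∃ a m, ∀ i ∈ V a m, ‖(v n : E) i - (v n : E) (l n)‖ <
        min (1 / ((n : ℝ) + 1)) r ∧
        ‖(T (v n) : E) i - (T (v n) : E) (l n)‖ < min (1 / ((n : ℝ) + 1)) r := fun n =>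
      jqc_pair hJ (v n) (T (v n)) (l n) (lt_min (by positivity) hrpos)
    choose a m ham using hJQ
    -- constant parity
    have hpar : ∃ b, (b = 0 ∨ b = 1) ∧ ∃ᶠ n in atTop, a n % 2 = b ∧ r ≤ ‖(v n : E) (l n)‖ := by
      by_contra hcon3
      push Not at hcon3
      have h0 := hcon3 0 (Or.inl rfl)
      have h1 := hcon3 1 (Or.inr rfl)
      obtain ⟨n, hn⟩ := (h0.and (h1.and hev)).exists
      have h2 : a n % 2 = 0 ∨ a n % 2 = 1 := by omega
      rcases h2 with h2 | h2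
      · exact absurd (hn.1 h2) (not_lt.2 hn.2.2)
      · exact absurd (hn.2.1 h2) (not_lt.2 hn.2.2)
    obtain ⟨b, hb01, hfreq⟩ := hpar
    obtain ⟨ψ, hψ, hψ2⟩ := extraction_of_frequently_atTop hfreq
    have hψge : ∀ n, n ≤ ψ n := hψ.id_le
    -- the bumps
    set e : ℕ → X := fun n => (v (ψ n) : E) (l (ψ n)) • indX hind (a (ψ n)) (m (ψ n) + 1) with he
    have hsub : ∀ n, V (a (ψ n)) (m (ψ n) + 1) ⊆ V (a (ψ n)) (m (ψ n)) := fun n =>
      V_anti (Nat.le_succ _)
    have heval : ∀ n i, i ∈ V (a (ψ n)) (m (ψ n) + 1) → (e n : E) i = (v (ψ n) : E) (l (ψ n)) := by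
      intro n i hi
      have : (e n : E) i = (v (ψ n) : E) (l (ψ n)) * ind (V (a (ψ n)) (m (ψ n) + 1)) i := rfl
      rw [this, ind_apply_of_mem hi, mul_one]
    have heval0 : ∀ n i, i ∉ V (a (ψ n)) (m (ψ n) + 1) → (e n : E) i = 0 := by
      intro n i hi
      have : (e n : E) i = (v (ψ n) : E) (l (ψ n)) * ind (V (a (ψ n)) (m (ψ n) + 1)) i := rfl
      rw [this, ind_apply_of_notMem hi, mul_zero]
    have hvne : ∀ n i, i ∈ V (a (ψ n)) (m (ψ n)) → (v (ψ n) : E) i ≠ 0 := by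
      intro n i hi h0
      have h1 := (ham (ψ n) i hi).1
      rw [h0, zero_sub, norm_neg] at h1
      have h2 := h1.trans_le (min_le_right _ _)
      exact absurd (hψ2 n).2 (not_le.2 h2)
    have hsupp : ∀ n i, (e n : E) i ≠ 0 → (v (ψ n) : E) i ≠ 0 := by
      intro n i hi
      apply hvne n i
      by_contra hcon4
      exact hi (heval0 n i fun h => hcon4 (hsub n h))
    have hed : DisjX e := by
      intro n m' hnm i
      by_contra hcon4
      push Not at hcon4
      rcases hvd _ _ (hψ.injective.ne hnm) i with h1 | h1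
      · exact hsupp n i hcon4.1 h1
      · exact hsupp m' i hcon4.2 h1
    have heM : ∀ n, ‖e n‖ ≤ M := by
      intro n
      rw [he]
      simp only
      rw [norm_smul]
      calc ‖(v (ψ n) : E) (l (ψ n))‖ * ‖indX hind (a (ψ n)) (m (ψ n) + 1)‖
          ≤ ‖(v (ψ n) : E) (l (ψ n))‖ * 1 :=
            mul_le_mul_of_nonneg_left (norm_indX_le hind _ _) (norm_nonneg _)
        _ ≤ M := by rw [mul_one]; exact (norm_apply_le _ _).trans (hvM _)
    have haV : ∀ n, a (ψ n) ∈ V (a (ψ n)) (m (ψ n) + 1) := fun n => rfl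
    have hT1 := hc b hb01 e M (fun n => a (ψ n)) r hed heM hrpos
      (fun n => by rw [heval n _ (haV n)]; exact (hψ2 n).2) (by
        intro n i hi
        have h1 : i ∈ V (a (ψ n)) (m (ψ n) + 1) := by
          by_contra hcon4; exact hi (heval0 n i hcon4)
        have h2 : i ∈ V (a (ψ n)) 1 := V_anti (by omega) h1
        have h3 : i % 2 ^ 1 = a (ψ n) % 2 ^ 1 := h2
        have h4 := (hψ2 n).1
        show i % 2 ^ 1 = b % 2 ^ 1
        rcases hb01 with rfl | rfl <;> omega)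
    -- difference
    have hdiffd : DisjX (fun n => v (ψ n) - e n) := by
      intro n m' hnm i
      have key : ∀ n, (v (ψ n) : E) i = 0 → ((v (ψ n) - e n : X) : E) i = 0 := by
        intro n h0
        have h1 : (e n : E) i = 0 := by
          by_contra hcon4; exact hsupp n i hcon4 h0
        have : ((v (ψ n) - e n : X) : E) i = (v (ψ n) : E) i - (e n : E) i := rfl
        rw [this, h0, h1, sub_zero]
      rcases hvd _ _ (hψ.injective.ne hnm) i with h1 | h1
      · exact Or.inl (key n h1)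
      · exact Or.inr (key m' h1)
    have hdiffM : ∀ n, ‖v (ψ n) - e n‖ ≤ 2 * M := by
      intro n
      have h1 := norm_sub_le (v (ψ n)) (e n)
      have h2 := hvM (ψ n)
      have h3 := heM n
      linarith
    have hone : Tendsto (fun n : ℕ => (1 : ℝ) / (n + 1)) atTop (𝓝 0) :=
      tendsto_one_div_add_atTop_nhds_zero_nat
    have hle1 : ∀ n : ℕ, (1 : ℝ) / ((ψ n : ℕ) + 1) ≤ 1 / (n + 1) := by
      intro n
      apply one_div_le_one_div_of_le (by positivity)
      have : (n : ℝ) ≤ (ψ n : ℕ) := by exact_mod_cast hψge n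
      linarith
    have hA := lemmaA hX T hdiffd hdiffM (p := fun n => a (ψ n)) (by
      rw [tendsto_zero_iff_norm_tendsto_zero]
      refine squeeze_zero (fun n => norm_nonneg _) (fun n => ?_) hone
      have h1 := (ham (ψ n) _ (hsub n (haV n))).1
      have : ((v (ψ n) - e n : X) : E) (a (ψ n)) = (v (ψ n) : E) (a (ψ n)) - (e n : E) (a (ψ n)) :=
        rfl
      rw [this, heval n _ (haV n)]
      exact (h1.trans_le (min_le_left _ _)).le.trans (hle1 n))
    -- T e_n - c e_n tends to zero at the points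
    have hE : Tendsto (fun n => (T (e n) : E) (a (ψ n)) - c * (e n : E) (a (ψ n))) atTop (𝓝 0) := by
      have h1 : Tendsto (fun n => (e n : E) (a (ψ n)) * ((T (e n) : E) (a (ψ n)) /
          (e n : E) (a (ψ n)) - c)) atTop (𝓝 0) := by
        rw [tendsto_zero_iff_norm_tendsto_zero]
        have h2 : Tendsto (fun n => M * ‖(T (e n) : E) (a (ψ n)) / (e n : E) (a (ψ n)) - c‖) atTop
            (𝓝 0) := by
          have h3 := (tendsto_sub_nhds_zero_iff.2 hT1).norm.const_mul M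
          simpa using h3
        refine squeeze_zero (fun n => norm_nonneg _) (fun n => ?_) h2
        rw [norm_mul]
        exact mul_le_mul_of_nonneg_right ((norm_apply_le _ _).trans (heM n)) (norm_nonneg _)
      refine h1.congr fun n => ?_
      have hne : (e n : E) (a (ψ n)) ≠ 0 := by
        rw [heval n _ (haV n)]
        intro h0
        have := (hψ2 n).2
        rw [h0, norm_zero] at this
        linarith
      field_simp
    have hsum := hA.add hE
    rw [add_zero] at hsum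
    obtain ⟨N, hN⟩ := (Metric.tendsto_atTop.1 hsum) (ε / 4) (by linarith)
    obtain ⟨N2, hN2⟩ := exists_nat_one_div_lt (show 0 < ε / 4 by linarith)
    set n := max N N2 with hn
    have h1 := hN n (le_max_left _ _)
    rw [dist_zero_right] at h1
    have h2 : (1 : ℝ) / (n + 1) < ε / 4 := by
      refine lt_of_le_of_lt ?_ hN2
      apply one_div_le_one_div_of_le (by positivity)
      have : (N2 : ℝ) ≤ n := by exact_mod_cast le_max_right N N2
      linarith
    have h3 := (ham (ψ n) _ (hsub n (haV n))).2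
    have h4 : ‖(T (v (ψ n)) : E) (a (ψ n)) - (T (v (ψ n)) : E) (l (ψ n))‖ < ε / 4 :=
      (h3.trans_le (min_le_left _ _)).trans_le ((hle1 n).trans h2.le)
    have h5 := hbig (ψ n)
    have e1 : (T (v (ψ n) - e n) : E) (a (ψ n)) + ((T (e n) : E) (a (ψ n)) -
        c * (e n : E) (a (ψ n))) = (T (v (ψ n)) : E) (a (ψ n)) - c * (v (ψ n) : E) (l (ψ n)) := by
      rw [map_sub, heval n _ (haV n)]
      have : ((T (v (ψ n)) - T (e n) : X) : E) (a (ψ n)) = (T (v (ψ n)) : E) (a (ψ n)) -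
        (T (e n) : E) (a (ψ n)) := rfl
      rw [this]
      ring
    rw [e1] at h1
    have e2 : (T (v (ψ n)) : E) (l (ψ n)) - c * (v (ψ n) : E) (l (ψ n)) =
        ((T (v (ψ n)) : E) (a (ψ n)) - c * (v (ψ n) : E) (l (ψ n))) -
        ((T (v (ψ n)) : E) (a (ψ n)) - (T (v (ψ n)) : E) (l (ψ n))) := by ring
    rw [e2] at h5
    have h6 := norm_sub_le ((T (v (ψ n)) : E) (a (ψ n)) - c * (v (ψ n) : E) (l (ψ n)))
      ((T (v (ψ n)) : E) (a (ψ n)) - (T (v (ψ n)) : E) (l (ψ n)))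
    linarith

end Pool.Agent.Helper41.FewOps
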