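import Pool.Agent.Helper41.FewOps.Step

open scoped BoundedContinuousFunction Cardinal
open BoundedContinuousFunction

namespace Pool.Agent.Helper41.FewOps

/-- The indicator function of a set of natural numbers. -/
noncomputable def ind (s : Set ℕ) : E :=
  BoundedContinuousFunction.ofNormedAddCommGroupDiscrete (s.indicator fun _ => (1 : ℂ)) 1 (by
    intro n
    by_cases h : n ∈ s
    · rw [Set.indicator_of_mem h]; simp
    · rw [Set.indicator_of_notMem h]; simp)

lemma ind_apply_of_mem {s : Set ℕ} {n : ℕ} (h : n ∈ s) : ind s n = 1 := by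
  show s.indicator (fun _ => (1 : ℂ)) n = 1
  rw [Set.indicator_of_mem h]

lemma ind_apply_of_notMem {s : Set ℕ} {n : ℕ} (h : n ∉ s) : ind s n = 0 := by
  show s.indicator (fun _ => (1 : ℂ)) n = 0
  rw [Set.indicator_of_notMem h]

lemma norm_ind_le (s : Set ℕ) : ‖ind s‖ ≤ 1 := by
  refine (BoundedContinuousFunction.norm_le zero_le_one).2 fun n => ?_
  by_cases h : n ∈ s
  · rw [ind_apply_of_mem h]; simp
  · rw [ind_apply_of_notMem h]; simp

lemma mem_V_self (k m : ℕ) : k ∈ V k m := rfl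

lemma V_anti {k m m' : ℕ} (h : m' ≤ m) : V k m ⊆ V k m' := by
  intro n hn
  have hd : 2 ^ m' ∣ 2 ^ m := pow_dvd_pow 2 h
  show n % 2 ^ m' = k % 2 ^ m'
  have hn' : n % 2 ^ m = k % 2 ^ m := hn
  rw [← Nat.mod_mod_of_dvd n hd, hn', Nat.mod_mod_of_dvd k hd]

/-- The countable set of basic indicator functions. -/
def X0 : Set E := Set.range fun am : ℕ × ℕ => ind (V am.1 am.2)

lemma X0_countable : X0.Countable := Set.countable_range _

lemma X0_const (F : Finset E) (hF : ↑F ⊆ X0) :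
    ∃ m, ∀ k n, n ∈ V k m → ∀ x ∈ F, x n = x k := by
  classical
  induction F using Finset.induction_on with
  | empty => exact ⟨0, by simp⟩
  | insert y F hy ih =>
    obtain ⟨m, hm⟩ := ih (fun x hx => hF (by simp at hx ⊢; exact Or.inr hx))
    obtain ⟨⟨a, j⟩, rfl⟩ := hF (show y ∈ _ by simp)
    refine ⟨max m j, fun k n hn x hx => ?_⟩
    rcases Finset.mem_insert.1 hx with rfl | hx
    · have h1 : n % 2 ^ j = k % 2 ^ j := V_anti (le_max_right m j) hn
      by_cases h2 : k ∈ V a j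
      · have h3 : n ∈ V a j := by
          show n % 2 ^ j = a % 2 ^ j
          rw [h1]; exact h2
        rw [ind_apply_of_mem h2, ind_apply_of_mem h3]
      · have h3 : n ∉ V a j := by
          intro h3
          apply h2
          show k % 2 ^ j = a % 2 ^ j
          rw [← h1]; exact h3
        rw [ind_apply_of_notMem h2, ind_apply_of_notMem h3]
    · exact hm k n (V_anti (le_max_left m j) hn) x hx

lemma jqc_X0 : JQC X0 := by
  intro S hS k
  obtain ⟨F, hF, ε, hε, h⟩ := hS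
  obtain ⟨m, hm⟩ := X0_const F hF
  refine ⟨k, m, fun n hn => h n k fun x hx => ?_⟩
  rw [hm k n hn x hx, sub_self, norm_zero]
  exact hε

lemma Ctl.of_cspan {G : Set E} {S : ℕ → ℕ → Prop} (h : Ctl (cspan G : Set E) S) : Ctl G S := by
  obtain ⟨F, hF, ε, hε, h⟩ := h
  exact (Ctl.forall_mem F fun x hx => Ctl.of_mem_cspan (hF hx) hε).mono h

lemma JQC.cspan {G : Set E} (h : JQC G) : JQC (cspan G : Set E) := fun S hS k =>
  h S hS.of_cspan k

/-- The index type of the construction. -/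
abbrev I : Type := (𝔠 : Cardinal.{0}).ord.ToType

lemma mk_I : #I = 𝔠 := Cardinal.mk_ord_toType _

lemma mk_Iio_lt' (i : I) : #(Set.Iio i) < 𝔠 := by
  have := Cardinal.mk_Iio_lt i (by simp)
  rwa [mk_I] at this

lemma bounded_seq (a : ℕ → I) : ∃ b : I, ∀ n, a n < b := by
  by_contra hcon
  push Not at hcon
  have h1 : (Set.univ : Set I) ⊆ ⋃ n, Set.Iic (a n) := by
    intro b _
    obtain ⟨n, hn⟩ := hcon b
    exact Set.mem_iUnion.2 ⟨n, hn⟩
  have h2 : #I ≤ Cardinal.sum fun n => #(Set.Iic (a n)) := by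
    rw [← Cardinal.mk_univ]
    exact (Cardinal.mk_le_mk_of_subset h1).trans (Cardinal.mk_iUnion_le_sum_mk)
  have h3 : ∀ n, #(Set.Iic (a n)) < 𝔠 := by
    intro n
    have h4 : Set.Iic (a n) = insert (a n) (Set.Iio (a n)) := by
      ext x; simp [le_iff_eq_or_lt]
    rw [h4]
    refine (Cardinal.mk_insert_le).trans_lt ?_
    exact Cardinal.add_lt_of_lt Cardinal.aleph0_le_continuum (mk_Iio_lt' _)
      (Cardinal.one_lt_aleph0.trans Cardinal.aleph0_lt_continuum)
  have h5 := Cardinal.sum_lt_prod (fun n => #(Set.Iic (a n))) (fun _ : ℕ => 𝔠) h3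
  rw [Cardinal.prod_const, Cardinal.lift_id, Cardinal.lift_id, Cardinal.mk_nat,
    Cardinal.continuum_power_aleph0] at h5
  rw [mk_I] at h2
  exact absurd h2 (not_le.2 h5)

/-- The tasks. -/
structure Task where
  u : ℕ → E
  p : ℕ → ℕ
  q : ℕ → ℕ
  s : ℕ → ℂ
  t : ℕ → ℂ
  δ : ℝ

lemma mk_E : #E ≤ 𝔠 := by
  have h : Function.Injective (fun (x : E) (n : ℕ) => x n) := by
    intro x y h
    ext n
    exact congrFun h n
  have := Cardinal.mk_le_of_injective h
  simpa using this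

lemma mk_Task : #Task ≤ 𝔠 := by
  have h : Function.Injective (fun τ : Task => (τ.u, τ.p, τ.q, τ.s, τ.t, τ.δ)) := by
    rintro ⟨⟩ ⟨⟩ h
    simp at h
    simp [h]
  have h1 := Cardinal.mk_le_of_injective h
  refine h1.trans ?_
  have hE : #(ℕ → E) ≤ 𝔠 := by
    have : #(ℕ → E) = #E ^ ℵ₀ := by
      rw [← Cardinal.power_def, Cardinal.mk_nat]
    rw [this, ← Cardinal.continuum_power_aleph0]
    exact Cardinal.power_le_power_right mk_E
  simp only [Cardinal.mk_prod, Cardinal.lift_id]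
  have h2 : #(ℕ → ℕ) ≤ 𝔠 := by
    rw [← Cardinal.power_def, Cardinal.mk_nat, Cardinal.aleph0_power_aleph0]
  have h3 : #(ℕ → ℂ) ≤ 𝔠 := by
    rw [← Cardinal.power_def, Cardinal.mk_nat, Cardinal.mk_complex,
      Cardinal.continuum_power_aleph0]
  have h4 : #ℝ ≤ 𝔠 := Cardinal.mk_real.le
  calc #(ℕ → E) * (#(ℕ → ℕ) * (#(ℕ → ℕ) * (#(ℕ → ℂ) * (#(ℕ → ℂ) * #ℝ))))
      ≤ 𝔠 * (𝔠 * (𝔠 * (𝔠 * (𝔠 * 𝔠)))) := by gcongr
    _ = 𝔠 := by simp

/-- Validity of a task over a set `Y`. -/
structure Task.Valid (τ : Task) (Y : Set E) : Prop where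
  mem : ∀ n, τ.u n ∈ Y
  disj : Disj τ.u
  bdd : ∃ M : ℝ, ∀ n, ‖τ.u n‖ ≤ M
  off : ∀ n m, m ≠ n → τ.u m (τ.p n) = 0 ∧ τ.u m (τ.q n) = 0
  cond : ∀ μ : ℂ, {n | ‖τ.s n - μ * τ.u n (τ.p n)‖ < 2 * τ.δ ∧
      ‖τ.t n - μ * τ.u n (τ.q n)‖ < 2 * τ.δ}.Finite

lemma exists_enum : ∃ e : I → Task, ∀ (τ : Task) (b : I), ∃ i, b ≤ i ∧ e i = τ := by
  classical
  have h1 : #(Task × I) ≤ #I := by
    rw [Cardinal.mk_prod, Cardinal.lift_id, Cardinal.lift_id, mk_I]
    calc #Task * 𝔠 ≤ 𝔠 * 𝔠 := by gcongr; exact mk_Task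
      _ = 𝔠 := by simp
  obtain ⟨g⟩ := (Cardinal.le_def _ _).1 h1
  have : Nonempty Task := ⟨⟨fun _ => 0, fun _ => 0, fun _ => 0, fun _ => 0, fun _ => 0, 0⟩⟩
  have : Nonempty I := by
    have : #I ≠ 0 := by rw [mk_I]; exact Cardinal.continuum_ne_zero
    exact Cardinal.mk_ne_zero_iff.1 this
  refine ⟨fun i => (Function.invFun g i).1, fun τ b => ?_⟩
  by_contra hcon
  push Not at hcon
  have hinv : ∀ x, Function.invFun g (g x) = x := Function.leftInverse_invFun g.injective
  have h2 : ∀ j : I, g (τ, j) < b := by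
    intro j
    by_contra h3
    exact hcon _ (not_lt.1 h3) (by rw [hinv])
  have h3 : Function.Injective (fun j : I => (⟨g (τ, j), h2 j⟩ : Set.Iio b)) := by
    intro j j' h
    have h4 := g.injective (Subtype.mk.inj h)
    exact (Prod.mk.inj h4).2
  have h5 := Cardinal.mk_le_of_injective h3
  rw [mk_I] at h5
  exact absurd h5 (not_le.2 (mk_Iio_lt' b))

/-- The state produced at one stage: a new vector, and a promise. -/
abbrev St : Type := E × Set (ℕ × ℂ) × ℝ

/-- The generators available before stage `i` (or from any set of stages). -/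
def Gen (F : I → St) (L : Set I) : Set E := X0 ∪ (fun j => (F j).1) '' L

/-- The requirement on the state chosen at stage `i`. -/
def Good (e : I → Task) (F : I → St) (i : I) (σ : St) : Prop :=
  JQC (insert σ.1 (Gen F (Set.Iio i))) ∧
  (∀ j < i, PH (F j).2.1 (F j).2.2 (cspan (insert σ.1 (Gen F (Set.Iio i))))) ∧
  PH σ.2.1 σ.2.2 (cspan (insert σ.1 (Gen F (Set.Iio i)))) ∧
  ((e i).Valid (cspan (Gen F (Set.Iio i))) → ∃ f : ℕ → Bool, IsSum (e i).u (AD f) σ.1 ∧
    σ.2.1 = target (e i).p (e i).q (e i).s (e i).t (AD f) ∧ σ.2.2 = (e i).δ)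

/-- The invariant before stage `i`. -/
def Inv (F : I → St) (i : I) : Prop :=
  JQC (Gen F (Set.Iio i)) ∧ ∀ j < i, PH (F j).2.1 (F j).2.2 (cspan (Gen F (Set.Iio i)))

lemma mk_Gen_lt (F : I → St) (i : I) : #(Gen F (Set.Iio i)) < 𝔠 := by
  refine (Cardinal.mk_union_le _ _).trans_lt ?_
  refine Cardinal.add_lt_of_lt Cardinal.aleph0_le_continuum ?_ ?_
  · exact (Cardinal.le_aleph0_iff_set_countable.2 X0_countable).trans_lt Cardinal.aleph0_lt_continuum
  · exact (Cardinal.mk_image_le).trans_lt (mk_Iio_lt' i)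

lemma exists_good (e : I → Task) (F : I → St) (i : I) (h : Inv F i) : ∃ σ, Good e F i σ := by
  by_cases hv : (e i).Valid (cspan (Gen F (Set.Iio i)))
  · obtain ⟨M, hM⟩ := hv.bdd
    obtain ⟨f, z, hz, h1, h2, h3⟩ := step (J := Set.Iio i) (mk_Gen_lt F i) h.1 (mk_Iio_lt' i)
      (fun j => (F j).2.1) (fun j => (F j).2.2) (fun j => h.2 j j.2) hv.mem hv.disj hM hv.off
      hv.cond
    exact ⟨(z, target (e i).p (e i).q (e i).s (e i).t (AD f), (e i).δ), h1,
      fun j hj => h2 ⟨j, hj⟩, h3, fun _ => ⟨f, hz, rfl, rfl⟩⟩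
  · have hmem : ind (V 0 0) ∈ Gen F (Set.Iio i) := Or.inl ⟨(0, 0), rfl⟩
    refine ⟨(ind (V 0 0), {(0, 0)}, 0), ?_, ?_, ?_, fun h => absurd h hv⟩
    · simp only [Set.insert_eq_of_mem hmem]; exact h.1
    · simp only [Set.insert_eq_of_mem hmem]; exact h.2
    · intro x _ η hη
      exact ⟨(0, 0), rfl, hη.trans_le (norm_nonneg _)⟩

lemma Gen_congr {F F' : I → St} {L : Set I} (h : ∀ j ∈ L, F j = F' j) : Gen F L = Gen F' L := by
  unfold Gen
  congr 1
  apply Set.image_congr
  intro j hj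
  rw [h j hj]

lemma Good_congr {e : I → Task} {F F' : I → St} {i : I} {σ : St} (h : ∀ j < i, F j = F' j)
    (hg : Good e F i σ) : Good e F' i σ := by
  unfold Good at *
  rw [← Gen_congr (F := F) (F' := F') (L := Set.Iio i) (fun j hj => h j hj)]
  refine ⟨hg.1, fun j hj => ?_, hg.2.2.1, hg.2.2.2⟩
  rw [← h j hj]
  exact hg.2.1 j hj

lemma Inv_congr {F F' : I → St} {i : I} (h : ∀ j < i, F j = F' j)
    (hg : Inv F i) : Inv F' i := by
  unfold Inv at *
  rw [← Gen_congr (F := F) (F' := F') (L := Set.Iio i) (fun j hj => h j hj)]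
  refine ⟨hg.1, fun j hj => ?_⟩
  rw [← h j hj]
  exact hg.2 j hj

lemma exists_rec (e : I → Task) : ∃ F : I → St, ∀ i, Inv F i → Good e F i (F i) := by
  classical
  let dflt : St := (0, ∅, 0)
  let pick : I → (I → St) → St := fun i F => if h : ∃ σ, Good e F i σ then h.choose else dflt
  let F : I → St := (wellFounded_lt (α := I)).fix
    (fun i ih => pick i (fun j => if h : j < i then ih j h else dflt))
  have hF : ∀ i, F i = pick i (fun j => if j < i then F j else dflt) := by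
    intro i
    show (wellFounded_lt (α := I)).fix _ i = _
    rw [WellFounded.fix_eq]
    congr 1
  refine ⟨F, fun i hi => ?_⟩
  have hc : ∀ j < i, F j = (fun j => if j < i then F j else dflt) j := by
    intro j hj; simp [hj]
  obtain hex := exists_good e _ i (Inv_congr hc hi)
  have h1 : F i = hex.choose := by
    rw [hF i]
    show (if h : ∃ σ, Good e (fun j => if j < i then F j else dflt) i σ then h.choose else dflt) = _
    rw [dif_pos hex]
  have h2 := hex.choose_spec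
  rw [← h1] at h2
  exact Good_congr (fun j hj => (hc j hj).symm) h2

lemma finite_subset_Gen (F : I → St) (L : Set I) (T : Finset E) (hT : ↑T ⊆ Gen F L) :
    ↑T ⊆ X0 ∨ ∃ j ∈ L, ↑T ⊆ insert (F j).1 (Gen F (Set.Iio j)) := by
  classical
  induction T using Finset.induction_on with
  | empty => left; simp
  | insert y T hy ih =>
    have hT' : (↑T : Set E) ⊆ Gen F L := fun x hx => hT (by simp at hx ⊢; exact Or.inr hx)
    have hy' : y ∈ Gen F L := hT (by simp)
    have hX0 : ∀ L, X0 ⊆ Gen F L := fun L => Set.subset_union_left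
    rw [Finset.coe_insert]
    rcases hy' with hy0 | ⟨j, hj, rfl⟩
    · rcases ih hT' with h | ⟨j, hj, h⟩
      · left; exact Set.insert_subset hy0 h
      · right
        exact ⟨j, hj, Set.insert_subset (Set.mem_insert_of_mem _ (hX0 _ hy0)) h⟩
    · right
      rcases ih hT' with h | ⟨j', hj', h⟩
      · exact ⟨j, hj, Set.insert_subset (Set.mem_insert _ _)
          ((h.trans (hX0 _)).trans (Set.subset_insert _ _))⟩
      · rcases lt_trichotomy j j' with hlt | heq | hlt
        · refine ⟨j', hj', Set.insert_subset (Set.mem_insert_of_mem _ ?_) h⟩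
          exact Or.inr ⟨j, hlt, rfl⟩
        · subst heq
          exact ⟨j, hj, Set.insert_subset (Set.mem_insert _ _) h⟩
        · refine ⟨j, hj, Set.insert_subset (Set.mem_insert _ _) ?_⟩
          refine h.trans ?_
          refine Set.insert_subset (Set.mem_insert_of_mem _ (Or.inr ⟨j', hlt, rfl⟩)) ?_
          refine Set.Subset.trans ?_ (Set.subset_insert _ _)
          exact Set.union_subset_union_right _ (Set.image_mono (Set.Iio_subset_Iio hlt.le))

lemma Gen_mono (F : I → St) {L L' : Set I} (h : L ⊆ L') : Gen F L ⊆ Gen F L' :=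
  Set.union_subset_union_right _ (Set.image_mono h)

lemma jqc_Gen {e : I → Task} {F : I → St} {L : Set I} (h : ∀ j ∈ L, Good e F j (F j)) :
    JQC (Gen F L) := by
  intro S hS k
  obtain ⟨T, hT, ε, hε, hTS⟩ := hS
  rcases finite_subset_Gen F L T hT with h1 | ⟨j, hj, h1⟩
  · exact jqc_X0 S ⟨T, h1, ε, hε, hTS⟩ k
  · exact (h j hj).1 S ⟨T, h1, ε, hε, hTS⟩ k

lemma ph_Gen {e : I → Task} {F : I → St} {L : Set I} (h : ∀ j ∈ L, Good e F j (F j)) {j : I}
    (hj : j ∈ L) : PH (F j).2.1 (F j).2.2 (cspan (Gen F L)) := by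
  intro x hx η hη
  obtain ⟨y, hy, hxy⟩ := exists_near hx (show 0 < ((F j).2.2 - η) / 2 by linarith)
  obtain ⟨T, hT, hyT⟩ := Submodule.mem_span_finite_of_mem_span hy
  have key : ∃ j' ∈ L, j ≤ j' ∧ ↑T ⊆ insert (F j').1 (Gen F (Set.Iio j')) := by
    rcases finite_subset_Gen F L T hT with h1 | ⟨j', hj', h1⟩
    · exact ⟨j, hj, le_rfl, (h1.trans Set.subset_union_left).trans (Set.subset_insert _ _)⟩
    · rcases le_or_gt j j' with h2 | h2
      · exact ⟨j', hj', h2, h1⟩
      · refine ⟨j, hj, le_rfl, h1.trans ?_⟩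
        refine Set.insert_subset (Set.mem_insert_of_mem _ (Or.inr ⟨j', h2, rfl⟩)) ?_
        exact (Gen_mono F (Set.Iio_subset_Iio h2.le)).trans (Set.subset_insert _ _)
  obtain ⟨j', hj', hjj, h1⟩ := key
  have hy2 : y ∈ cspan (insert (F j').1 (Gen F (Set.Iio j'))) :=
    span_le_cspan _ (Submodule.span_mono h1 hyT)
  have hP : PH (F j).2.1 (F j).2.2 (cspan (insert (F j').1 (Gen F (Set.Iio j')))) := by
    rcases hjj.lt_or_eq with h2 | h2
    · exact (h j' hj').2.1 j h2
    · subst h2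
      exact (h j hj).2.2.1
  obtain ⟨r, hr, h3⟩ := hP y hy2 ((η + (F j).2.2) / 2) (by linarith)
  refine ⟨r, hr, ?_⟩
  have h4 := norm_apply_le (x - y) r.1
  have e1 : r.2 - y r.1 = (r.2 - x r.1) + (x - y) r.1 := by simp
  rw [e1] at h3
  have := norm_add_le (r.2 - x r.1) ((x - y) r.1)
  linarith

theorem exists_space : ∃ X : Submodule ℂ E, IsClosed (X : Set E) ∧ (∀ a m, ind (V a m) ∈ X) ∧
    JQC (X : Set E) ∧ ∀ τ : Task, τ.Valid X → ∃ f : ℕ → Bool, ∃ z ∈ X, IsSum τ.u (AD f) z ∧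
      PH (target τ.p τ.q τ.s τ.t (AD f)) τ.δ X := by
  obtain ⟨e, he⟩ := exists_enum
  obtain ⟨F, hF⟩ := exists_rec e
  have hInv : ∀ i, Inv F i := by
    intro i
    induction i using WellFoundedLT.induction with
    | ind i ih =>
      have h1 : ∀ j ∈ Set.Iio i, Good e F j (F j) := fun j hj => hF j (ih j hj)
      exact ⟨jqc_Gen h1, fun j hj => ph_Gen h1 hj⟩
  have hGood : ∀ i ∈ (Set.univ : Set I), Good e F i (F i) := fun i _ => hF i (hInv i)
  refine ⟨cspan (Gen F Set.univ), isClosed_cspan _, ?_, (jqc_Gen hGood).cspan, ?_⟩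
  · intro a m
    exact subset_cspan _ (Or.inl ⟨(a, m), rfl⟩)
  · intro τ hτ
    have h1 : ∀ n m : ℕ, ∃ y ∈ Submodule.span ℂ (Gen F Set.univ), ‖τ.u n - y‖ < 1 / (m + 1) :=
      fun n m => exists_near (hτ.mem n) (by positivity)
    choose y hy hyu using h1
    have h2 : ∀ n m : ℕ, ∃ j : I, ∀ b, j < b → y n m ∈ Submodule.span ℂ (Gen F (Set.Iio b)) := by
      intro n m
      obtain ⟨T, hT, hyT⟩ := Submodule.mem_span_finite_of_mem_span (hy n m)
      rcases finite_subset_Gen F _ T hT with h3 | ⟨j, _, h3⟩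
      · have : Nonempty I := by
          have : #I ≠ 0 := by rw [mk_I]; exact Cardinal.continuum_ne_zero
          exact Cardinal.mk_ne_zero_iff.1 this
        exact ⟨Classical.arbitrary I, fun b _ =>
          Submodule.span_mono (h3.trans Set.subset_union_left) hyT⟩
      · refine ⟨j, fun b hb => Submodule.span_mono (h3.trans ?_) hyT⟩
        exact Set.insert_subset (Or.inr ⟨j, hb, rfl⟩) (Gen_mono F (Set.Iio_subset_Iio hb.le))
    choose j hj using h2
    obtain ⟨b, hb⟩ := bounded_seq (fun k => j (Nat.unpair k).1 (Nat.unpair k).2)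
    obtain ⟨i, hbi, hei⟩ := he τ b
    have h3 : ∀ n, τ.u n ∈ cspan (Gen F (Set.Iio i)) := by
      intro n
      show τ.u n ∈ closure (Submodule.span ℂ (Gen F (Set.Iio i)) : Set E)
      rw [Metric.mem_closure_iff]
      intro ε hε
      obtain ⟨m, hm⟩ := exists_nat_one_div_lt hε
      refine ⟨y n m, hj n m i ?_, ?_⟩
      · have := hb (Nat.pair n m)
        simp only [Nat.unpair_pair] at this
        exact this.trans_le hbi
      · rw [dist_eq_norm]
        exact (hyu n m).trans hm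
    have h4 : (e i).Valid (cspan (Gen F (Set.Iio i))) := by
      rw [hei]
      exact ⟨h3, hτ.disj, hτ.bdd, hτ.off, hτ.cond⟩
    obtain ⟨f, hf1, hf2, hf3⟩ := (hGood i trivial).2.2.2 h4
    rw [hei] at hf1 hf2 hf3
    refine ⟨f, (F i).1, subset_cspan _ (Or.inr ⟨i, trivial, rfl⟩), hf1, ?_⟩
    have h5 := ph_Gen hGood (Set.mem_univ i)
    rw [hf2, hf3] at h5
    exact h5

end Pool.Agent.Helper41.FewOps
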