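import Pool.Agent.Helper41.FewOps.Basic

open scoped BoundedContinuousFunction Cardinal
open BoundedContinuousFunction

namespace Pool.Agent.Helper41.FewOps

/-- The branch of the binary tree attached to `f`, coded as a sequence of naturals. -/
def adSeq (f : ℕ → Bool) (n : ℕ) : ℕ := Encodable.encode ((List.range n).map f)

lemma adSeq_eq {f g : ℕ → Bool} {n m : ℕ} (h : adSeq f n = adSeq g m) :
    n = m ∧ ∀ i < n, f i = g i := by
  have h1 : (List.range n).map f = (List.range m).map g := Encodable.encode_injective h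
  have h2 : n = m := by
    have := congrArg List.length h1
    simpa using this
  subst h2
  refine ⟨rfl, fun i hi => ?_⟩
  have h3 := List.map_inj_left.1 h1 i (by simpa using hi)
  exact h3

lemma adSeq_injective (f : ℕ → Bool) : Function.Injective (adSeq f) := fun _ _ h =>
  (adSeq_eq h).1

/-- The almost disjoint family. -/
def AD (f : ℕ → Bool) : Set ℕ := Set.range (adSeq f)

lemma AD_inter_finite {f g : ℕ → Bool} (h : f ≠ g) : (AD f ∩ AD g).Finite := by
  obtain ⟨N, hN⟩ := Function.ne_iff.1 h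
  apply Set.Finite.subset ((Set.finite_Iic N).image (adSeq f))
  rintro _ ⟨⟨n, rfl⟩, ⟨m, hm⟩⟩
  refine ⟨n, ?_, rfl⟩
  by_contra hn
  rw [Set.mem_Iic, not_le] at hn
  exact hN ((adSeq_eq hm.symm).2 N hn)

lemma AD_infinite (f : ℕ → Bool) : (AD f).Infinite :=
  Set.infinite_range_of_injective (adSeq_injective f)

lemma AD_diff_infinite {f g : ℕ → Bool} (h : f ≠ g) : (AD f \ AD g).Infinite := by
  have h1 := (AD_infinite f).sdiff (AD_inter_finite h)
  have e : AD f \ (AD f ∩ AD g) = AD f \ AD g := by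
    ext x; simp
  rwa [e] at h1

lemma exists_dense_small (G : Set E) (hG : #G < 𝔠) :
    ∃ Q : Set E, #Q < 𝔠 ∧ ∀ y ∈ cspan G, ∀ ε : ℝ, 0 < ε → ∃ q ∈ Q, ‖y - q‖ < ε := by
  classical
  have h1 : ∀ l : List G, ∃ c : Set E, c.Countable ∧
      (Submodule.span ℂ {x : E | ∃ g ∈ l, (g : E) = x} : Set E) ⊆ closure c := by
    intro l
    have hfin : {x : E | ∃ g ∈ l, (g : E) = x}.Finite := by
      have : {x : E | ∃ g ∈ l, (g : E) = x} = (fun g : G => (g : E)) '' {g | g ∈ l} := by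
        ext x; simp
      rw [this]
      exact (List.finite_toSet l).image _
    have hs : TopologicalSpace.IsSeparable {x : E | ∃ g ∈ l, (g : E) = x} :=
      hfin.countable.isSeparable
    exact hs.span
  choose c hc hcl using h1
  refine ⟨⋃ l, c l, ?_, ?_⟩
  · refine (Cardinal.mk_iUnion_le_sum_mk).trans_lt ?_
    refine (Cardinal.sum_le_sum _ (fun _ => ℵ₀) fun l => (hc l).le_aleph0).trans_lt ?_
    rw [Cardinal.sum_const, Cardinal.lift_id, Cardinal.lift_id]
    refine Cardinal.mul_lt_of_lt Cardinal.aleph0_le_continuum ?_ Cardinal.aleph0_lt_continuum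
    exact (Cardinal.mk_list_le_max _).trans_lt (max_lt Cardinal.aleph0_lt_continuum hG)
  · intro y hy ε hε
    obtain ⟨w, hw, hyw⟩ := exists_near hy (show 0 < ε / 2 by linarith)
    obtain ⟨T, hT, hwT⟩ := Submodule.mem_span_finite_of_mem_span hw
    have hl : ∃ l : List G, (↑T : Set E) ⊆ {x : E | ∃ g ∈ l, (g : E) = x} := by
      refine ⟨T.attach.toList.map fun x => ⟨x.1, hT x.2⟩, ?_⟩
      intro x hx
      simp only [List.mem_map, Finset.mem_toList, Finset.mem_attach, true_and,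
        Set.mem_ofPred_eq]
      exact ⟨⟨x, hT hx⟩, ⟨⟨x, hx⟩, rfl⟩, rfl⟩
    obtain ⟨l, hl⟩ := hl
    have h2 : w ∈ closure (c l) := hcl l (Submodule.span_mono hl hwT)
    obtain ⟨q, hq, hwq⟩ := Metric.mem_closure_iff.1 h2 (ε / 2) (by linarith)
    refine ⟨q, Set.mem_iUnion.2 ⟨l, hq⟩, ?_⟩
    rw [dist_eq_norm] at hwq
    have := norm_add_le (y - w) (w - q)
    rw [sub_add_sub_cancel] at this
    linarith

lemma not_jqc_insert {G : Set E} {z : E} (h : ¬ JQC (insert z G)) :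
    ∃ k, ∃ S, Ctl G S ∧ ∃ ε : ℝ, 0 < ε ∧ ∀ a m, ¬ ∀ n ∈ V a m, S n k ∧ ‖z n - z k‖ < ε := by
  unfold JQC at h
  push Not at h
  obtain ⟨S, hS, k, h⟩ := h
  obtain ⟨S', hS', ε, hε, hSS⟩ := hS.insert
  refine ⟨k, S', hS', ε, hε, fun a m hcon => ?_⟩
  obtain ⟨n, hn, hn2⟩ := h a m
  exact hn2 (hSS n k (hcon n hn).1 (hcon n hn).2)

theorem step {G : Set E} (hG : #G < 𝔠) (hJ : JQC G) {J : Type} (hJc : #J < 𝔠)
    (R : J → Set (ℕ × ℂ)) (δ : J → ℝ) (hP : ∀ j, PH (R j) (δ j) (cspan G))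
    {u : ℕ → E} (hu : ∀ n, u n ∈ cspan G) (hd : Disj u) {M : ℝ} (hM : ∀ n, ‖u n‖ ≤ M)
    {p q : ℕ → ℕ} {s t : ℕ → ℂ} {δ₀ : ℝ}
    (hoff : ∀ n m, m ≠ n → u m (p n) = 0 ∧ u m (q n) = 0)
    (hcond : ∀ μ : ℂ,
      {n | ‖s n - μ * u n (p n)‖ < 2 * δ₀ ∧ ‖t n - μ * u n (q n)‖ < 2 * δ₀}.Finite) :
    ∃ f : ℕ → Bool, ∃ z : E, IsSum u (AD f) z ∧ JQC (insert z G) ∧
      (∀ j, PH (R j) (δ j) (cspan (insert z G))) ∧
      PH (target p q s t (AD f)) δ₀ (cspan (insert z G)) := by
  classical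
  have hM0 : 0 ≤ M := (norm_nonneg _).trans (hM 0)
  choose z hz hzM using fun f : ℕ → Bool => exists_isSum hd hM (AD f)
  by_contra hcon
  push Not at hcon
  obtain ⟨Q, hQc, hQ⟩ := exists_dense_small G hG
  let R' : Option J → (ℕ → Bool) → Set (ℕ × ℂ) := fun j f =>
    match j with
    | some j => R j
    | none => target p q s t (AD f)
  let δ' : Option J → ℝ := fun j =>
    match j with
    | some j => δ j
    | none => δ₀
  let P : (ℕ → Bool) → (ℕ ⊕ (Option J × ℕ × Q × ℕ)) → Prop := fun f c =>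
    match c with
    | Sum.inl k => ∃ S, Ctl G S ∧ ∃ ε : ℝ, 0 < ε ∧
        ∀ a m, ¬ ∀ n ∈ V a m, S n k ∧ ‖z f n - z f k‖ < ε
    | Sum.inr (j, n, q, i) => ∃ y ∈ cspan G, ∃ μ : ℂ, ∃ η : ℝ, η + (2 + 2 * M) / (n + 1) < δ' j ∧
        (∀ r ∈ R' j f, ‖r.2 - y r.1 - μ * z f r.1‖ ≤ η) ∧ ‖y - q‖ < 1 / (n + 1) ∧
        ‖μ - TopologicalSpace.denseSeq ℂ i‖ < 1 / (n + 1)
  have hex : ∀ f, ∃ c, P f c := by
    intro f
    by_cases h1 : JQC (insert (z f) G)
    · have h2 : ∃ j, ¬ PH (R' j f) (δ' j) (cspan (insert (z f) G)) := by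
        by_contra h3
        push Not at h3
        exact hcon f (z f) (hz f) h1 (fun j => h3 (some j)) (h3 none)
      obtain ⟨j, h2⟩ := h2
      obtain ⟨y, hy, μ, η, n, hη, h3⟩ := not_PH_insert h2 (M := 2 + 2 * M) (by linarith)
      obtain ⟨q, hq, hyq⟩ := hQ y hy (1 / (n + 1)) (by positivity)
      obtain ⟨_, hi, ⟨i, rfl⟩⟩ := Metric.dense_iff.1 (TopologicalSpace.denseRange_denseSeq ℂ) μ
        (1 / (n + 1)) (by positivity)
      refine ⟨Sum.inr (j, n, ⟨q, hq⟩, i), y, hy, μ, η, hη, h3, hyq, ?_⟩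
      rw [← dist_eq_norm, dist_comm]
      exact hi
    · obtain ⟨k, h2⟩ := not_jqc_insert h1
      exact ⟨Sum.inl k, h2⟩
  choose c hc using hex
  have hinj : Function.Injective c := by
    intro f g hfg
    by_contra hne
    have hf := hc f
    have hg := hc g
    rw [← hfg] at hg
    have hfin := AD_inter_finite hne
    rcases hcf : c f with k | ⟨j, n, q, i⟩
    · rw [hcf] at hf hg
      obtain ⟨SA, hSA, εA, hεA, badA⟩ := hf
      obtain ⟨SB, hSB, εB, hεB, badB⟩ := hg
      exact jqc_step hJ hu hd hfin (hz f) (hz g) hSA hSB hεA hεB badA badB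
    · rw [hcf] at hf hg
      obtain ⟨y, hy, μ, η, hη, h1, h2, h3⟩ := hf
      obtain ⟨y', hy', μ', η', hη', h1', h2', h3'⟩ := hg
      have hn : (0 : ℝ) < n + 1 := by positivity
      have hyy : ‖y' - y‖ < 2 / (n + 1) := by
        have h4 := norm_sub_le (y' - q) (y - q)
        rw [sub_sub_sub_cancel_right] at h4
        have : (2 : ℝ) / (n + 1) = 1 / (n + 1) + 1 / (n + 1) := by ring
        linarith
      have hμμ : ‖μ' - μ‖ < 2 / (n + 1) := by
        have h4 := norm_sub_le (μ' - TopologicalSpace.denseSeq ℂ i)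
          (μ - TopologicalSpace.denseSeq ℂ i)
        rw [sub_sub_sub_cancel_right] at h4
        have : (2 : ℝ) / (n + 1) = 1 / (n + 1) + 1 / (n + 1) := by ring
        linarith
      have hg2 : ∀ r ∈ R' j g, ‖r.2 - y r.1 - μ * z g r.1‖ ≤ η' + (2 + 2 * M) / (n + 1) := by
        intro r hr
        have h4 := h1' r hr
        have e : r.2 - y r.1 - μ * z g r.1 = (r.2 - y' r.1 - μ' * z g r.1) + (y' - y) r.1 +
            (μ' - μ) * z g r.1 := by
          simp; ring
        rw [e]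
        have h5 := norm_add_le ((r.2 - y' r.1 - μ' * z g r.1) + (y' - y) r.1)
          ((μ' - μ) * z g r.1)
        have h6 := norm_add_le (r.2 - y' r.1 - μ' * z g r.1) ((y' - y) r.1)
        have h7 := norm_apply_le (y' - y) r.1
        have h8 : ‖(μ' - μ) * z g r.1‖ ≤ 2 / (n + 1) * M := by
          rw [norm_mul]
          exact mul_le_mul hμμ.le ((norm_apply_le _ _).trans (hzM g)) (norm_nonneg _)
            (by positivity)
        have : (2 + 2 * M) / ((n : ℝ) + 1) = 2 / (n + 1) + 2 / (n + 1) * M := by ring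
        linarith
      have hpos : 0 ≤ (2 + 2 * M) / ((n : ℝ) + 1) := by positivity
      set η'' := max η (η' + (2 + 2 * M) / (n + 1)) with hη''
      have hlt : η'' < δ' j := max_lt (by linarith) hη'
      cases j with
      | some j =>
        exact old_step hu hd hfin (hz f) (hz g) (hP j) hy μ hlt
          (fun r hr => (h1 r hr).trans (le_max_left _ _))
          (fun r hr => (hg2 r hr).trans (le_max_right _ _))
      | none =>
        exact new_step (AD_diff_infinite hne) (hz f) (hz g) hoff hcond μ hlt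
          (fun r hr => (h1 r hr).trans (le_max_left _ _))
          (fun r hr => (hg2 r hr).trans (le_max_right _ _))
  have hcard := Cardinal.mk_le_of_injective hinj
  have h1 : #(ℕ → Bool) = 𝔠 := by simp
  have h2 : #(ℕ ⊕ (Option J × ℕ × Q × ℕ)) < 𝔠 := by
    simp only [Cardinal.mk_sum, Cardinal.mk_prod, Cardinal.lift_id, Cardinal.mk_option,
      Cardinal.mk_nat]
    have h0 := Cardinal.aleph0_le_continuum
    have h3 := Cardinal.aleph0_lt_continuum
    have h4 : (1 : Cardinal) < 𝔠 := Cardinal.one_lt_aleph0.trans h3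
    exact Cardinal.add_lt_of_lt h0 h3 (Cardinal.mul_lt_of_lt h0 (Cardinal.add_lt_of_lt h0 hJc h4)
      (Cardinal.mul_lt_of_lt h0 h3 (Cardinal.mul_lt_of_lt h0 hQc h3)))
  rw [h1] at hcard
  exact absurd hcard (not_le.2 h2)

end Pool.Agent.Helper41.FewOps
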